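import Pool.Agent.Q311.KO.Ost

/-!
# Primitives over differential fields with several derivations
-/

set_option autoImplicit false
set_option linter.unusedSectionVars false

namespace Pool.Agent.Q311.KO

open Polynomial

variable {M X : Type} [Field M] [Algebra ℂ M] (D : X → Derivation ℂ M M)

/-- the field `F` is stable under the derivations -/
def Closed (F : IntermediateField ℂ M) : Prop := ∀ j, ∀ a ∈ F, D j a ∈ F

variable {D}

theorem closed_adjoin (S : Set M) (h : ∀ j, ∀ s ∈ S, D j s ∈ IntermediateField.adjoin ℂ S) :
    Closed D (IntermediateField.adjoin ℂ S) := by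
  intro j a ha
  induction ha using IntermediateField.adjoin_induction with
  | mem x hx => exact h j x hx
  | algebraMap x =>
    rw [Derivation.map_algebraMap]
    exact zero_mem _
  | add x y hx hy h1 h2 =>
    rw [map_add]
    exact add_mem h1 h2
  | inv x hx h1 =>
    rw [Derivation.leibniz_inv]
    rw [smul_eq_mul]
    exact mul_mem (neg_mem (pow_mem (inv_mem hx) 2)) h1
  | mul x y hx hy h1 h2 =>
    rw [Derivation.leibniz, smul_eq_mul, smul_eq_mul]
    exact add_mem (mul_mem hx h2) (mul_mem hy h1)

/-- the restriction of a derivation to a stable field -/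
noncomputable def resD (F : IntermediateField ℂ M) (hF : Closed D F) (j : X) : Derivation ℂ F F :=
  Derivation.mk'
    { toFun := fun a => ⟨D j a.1, hF j a.1 a.2⟩
      map_add' := fun a b => Subtype.ext (by
        change D j (a.1 + b.1) = D j a.1 + D j b.1
        rw [map_add])
      map_smul' := fun c a => Subtype.ext (by
        exact (D j).map_smul c a.1) }
    (fun a b => Subtype.ext (by
      change D j (a.1 * b.1) = a.1 * D j b.1 + b.1 * D j a.1
      rw [Derivation.leibniz, smul_eq_mul, smul_eq_mul]))

theorem resD_apply (F : IntermediateField ℂ M) (hF : Closed D F) (j : X) (a : F) :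
    ((resD F hF j a : F) : M) = D j (a : M) := rfl

/-- **Ostrowski's theorem** in a field with constants `ℂ` -/
theorem ost_in (hconst : ∀ m : M, (∀ j, D j m = 0) → ∃ c : ℂ, algebraMap ℂ M c = m) (F : IntermediateField ℂ M)
    (hF : Closed D F) {ι : Type} [Fintype ι] (y : ι → M) (hy : ∀ j i, D j (y i) ∈ F)
    (hind : ∀ c : ι → ℂ, ∑ i, algebraMap ℂ M (c i) * y i ∈ F → c = 0) : AlgebraicIndependent F y := by
  have hch : CharZero M := charZero_of_injective_algebraMap (algebraMap ℂ M).injective
  refine ost (fun j => resD F hF j) D (fun j f => rfl) hconst y (fun j i => ⟨D j (y i), hy j i⟩) (fun j i => rfl) ?_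
  intro c f hf
  refine hind c ?_
  rw [hf]
  exact f.2

/-- an algebraic primitive is in the field -/
theorem mem_of_alg (hconst : ∀ m : M, (∀ j, D j m = 0) → ∃ c : ℂ, algebraMap ℂ M c = m) (F : IntermediateField ℂ M)
    (hF : Closed D F) (y : M) (hy : ∀ j, D j y ∈ F) (ha : IsAlgebraic F y) : y ∈ F := by
  by_contra hcon
  have h1 : AlgebraicIndependent F (fun _ : Unit => y) := by
    refine ost_in hconst F hF (fun _ : Unit => y) (fun j _ => hy j) ?_
    intro c hc
    rw [Fintype.sum_unique] at hc
    by_contra hne
    apply hcon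
    have h2 : c default ≠ 0 := by
      intro h
      apply hne
      funext u
      rw [Unique.eq_default u, h]
      rfl
    have h3 : algebraMap ℂ M (c default) ≠ 0 := by
      rw [Ne, map_eq_zero_iff _ (algebraMap ℂ M).injective]
      exact h2
    have h4 : y = (algebraMap ℂ M (c default))⁻¹ * (algebraMap ℂ M (c default) * y) := by
      rw [← mul_assoc, inv_mul_cancel₀ h3, one_mul]
    rw [h4]
    exact mul_mem (inv_mem (F.algebraMap_mem _)) hc
  have h2 : Transcendental F y := (algebraicIndependent_unique_type_iff (R := F) (x := fun _ : Unit => y)).1 h1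
  exact h2 ha

/-- elements of `F(y)` which are algebraic over `F` are in `F` when `y` is transcendental over `F` -/
theorem mem_of_tr {F L : Type} [Field F] [Field L] [Algebra F L] {y a : L} (hy : Transcendental F y)
    (ha : a ∈ IntermediateField.adjoin F {y}) (hal : IsAlgebraic F a) : ∃ b : F, algebraMap F L b = a := by
  obtain ⟨r, s, hrs⟩ := IntermediateField.mem_adjoin_simple_iff F a |>.1 ha
  by_contra hcon
  push Not at hcon
  have hs0 : aeval y s ≠ 0 := by
    intro h
    rw [h, div_zero] at hrs
    exact hcon 0 (by rw [map_zero, hrs])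
  have hs : s ≠ 0 := by
    rintro rfl
    exact hs0 (map_zero _)
  let A := IntermediateField.adjoin F {a}
  let a' : A := ⟨a, IntermediateField.mem_adjoin_simple_self F a⟩
  let p : A[X] := r.map (algebraMap F A) - C a' * s.map (algebraMap F A)
  have hp : p ≠ 0 := by
    intro h
    have h1 : ∃ i, s.coeff i ≠ 0 := by
      by_contra h2
      push Not at h2
      exact hs (Polynomial.ext fun i => by rw [h2, coeff_zero])
    obtain ⟨i, hi⟩ := h1
    have h2 := congrArg (fun q : A[X] => q.coeff i) h
    simp only [p, coeff_sub, coeff_C_mul, coeff_map, coeff_zero] at h2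
    have h3 := congrArg (algebraMap A L) h2
    rw [map_sub, map_mul, map_zero, ← IsScalarTower.algebraMap_apply, ← IsScalarTower.algebraMap_apply,
      sub_eq_zero] at h3
    have h4 : algebraMap F L (s.coeff i) ≠ 0 := by
      rw [Ne, map_eq_zero_iff _ (algebraMap F L).injective]
      exact hi
    have h5 : algebraMap A L a' = a := rfl
    rw [h5] at h3
    refine hcon (r.coeff i / s.coeff i) ?_
    rw [map_div₀, h3, mul_div_cancel_right₀ _ h4]
  have hpy : aeval y p = 0 := by
    simp only [p, map_sub, map_mul, aeval_C, aeval_map_algebraMap]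
    have h5 : algebraMap A L a' = a := rfl
    rw [h5, hrs, div_mul_cancel₀ _ hs0, sub_self]
  have h1 : IsAlgebraic A y := ⟨p, hp, hpy⟩
  have h2 : Algebra.IsAlgebraic F A := IntermediateField.isAlgebraic_adjoin_simple hal.isIntegral
  exact hy (h1.restrictScalars F)

/-- adjoining one primitive to a field does not add algebraic elements -/
theorem step (hconst : ∀ m : M, (∀ j, D j m = 0) → ∃ c : ℂ, algebraMap ℂ M c = m) (S : Set M)
    (hF : Closed D (IntermediateField.adjoin ℂ S)) (y : M) (hy : ∀ j, D j y ∈ IntermediateField.adjoin ℂ S) :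
    Closed D (IntermediateField.adjoin ℂ (insert y S)) ∧
    ∀ a ∈ IntermediateField.adjoin ℂ (insert y S), IsAlgebraic (IntermediateField.adjoin ℂ S) a →
      a ∈ IntermediateField.adjoin ℂ S := by
  set F := IntermediateField.adjoin ℂ S with hFd
  have hle : F ≤ IntermediateField.adjoin ℂ (insert y S) := IntermediateField.adjoin.mono _ _ _ (Set.subset_insert _ _)
  refine ⟨closed_adjoin _ ?_, ?_⟩
  · intro j s hs
    rcases Set.mem_insert_iff.1 hs with rfl | hs
    · exact hle (hy j)
    · exact hle (hF j s (IntermediateField.subset_adjoin ℂ S hs))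
  · intro a ha hal
    by_cases hyF : y ∈ F
    · have h1 : IntermediateField.adjoin ℂ (insert y S) ≤ F := by
        rw [IntermediateField.adjoin_le_iff]
        intro s hs
        rcases Set.mem_insert_iff.1 hs with rfl | hs
        · exact hyF
        · exact IntermediateField.subset_adjoin ℂ S hs
      exact h1 ha
    · have hyt : Transcendental F y := fun h => hyF (mem_of_alg hconst F hF y hy h)
      have h1 : a ∈ IntermediateField.adjoin F {y} := by
        have h2 : IntermediateField.adjoin ℂ (insert y S) ≤ (IntermediateField.adjoin F {y}).restrictScalars ℂ := by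
          rw [IntermediateField.adjoin_le_iff]
          intro s hs
          rw [SetLike.mem_coe, IntermediateField.mem_restrictScalars]
          rcases Set.mem_insert_iff.1 hs with rfl | hs
          · exact IntermediateField.mem_adjoin_simple_self F s
          · exact (IntermediateField.adjoin F {y}).algebraMap_mem ⟨s, IntermediateField.subset_adjoin ℂ S hs⟩
        exact h2 ha
      obtain ⟨b, hb⟩ := mem_of_tr hyt h1 hal
      rw [← hb]
      exact b.2

/-- towers of primitives: no new algebraic elements -/
theorem tower (hconst : ∀ m : M, (∀ j, D j m = 0) → ∃ c : ℂ, algebraMap ℂ M c = m) (K : IntermediateField ℂ M)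
    (S : Set M) (hKS : K ≤ IntermediateField.adjoin ℂ S) (hS : Closed D (IntermediateField.adjoin ℂ S))
    (hreg : ∀ a ∈ IntermediateField.adjoin ℂ S, IsAlgebraic K a → a ∈ K) {n : ℕ} (y : Fin n → M)
    (hy : ∀ i j, D j (y i) ∈ IntermediateField.adjoin ℂ (S ∪ y '' {k | k < i})) :
    Closed D (IntermediateField.adjoin ℂ (S ∪ Set.range y)) ∧
    ∀ a ∈ IntermediateField.adjoin ℂ (S ∪ Set.range y), IsAlgebraic K a → a ∈ K := by
  have key : ∀ m ≤ n, K ≤ IntermediateField.adjoin ℂ (S ∪ y '' {k | (k : ℕ) < m}) ∧
      Closed D (IntermediateField.adjoin ℂ (S ∪ y '' {k | (k : ℕ) < m})) ∧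
      ∀ a ∈ IntermediateField.adjoin ℂ (S ∪ y '' {k | (k : ℕ) < m}), IsAlgebraic K a → a ∈ K := by
    intro m
    induction m with
    | zero =>
      intro _
      have h1 : y '' {k | (k : ℕ) < 0} = ∅ := by
        rw [Set.image_eq_empty]
        ext k
        simp
      rw [h1, Set.union_empty]
      exact ⟨hKS, hS, hreg⟩
    | succ m ih =>
      intro hm
      obtain ⟨hK1, h1, h2⟩ := ih (by omega)
      have h3 : S ∪ y '' {k | (k : ℕ) < m + 1} = insert (y ⟨m, by omega⟩) (S ∪ y '' {k | (k : ℕ) < m}) := by
        ext z
        simp only [Set.mem_union, Set.mem_image, Set.mem_ofPred_eq, Set.mem_insert_iff]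
        constructor
        · rintro (h | ⟨k, hk, rfl⟩)
          · exact Or.inr (Or.inl h)
          · rcases Nat.lt_succ_iff_lt_or_eq.1 hk with h | h
            · exact Or.inr (Or.inr ⟨k, h, rfl⟩)
            · left
              congr 1
              exact Fin.ext h
        · rintro (rfl | h | ⟨k, hk, rfl⟩)
          · exact Or.inr ⟨⟨m, by omega⟩, by simp, rfl⟩
          · exact Or.inl h
          · exact Or.inr ⟨k, by omega, rfl⟩
      obtain ⟨h4, h5⟩ := step hconst _ h1 (y ⟨m, by omega⟩) (fun j => by
        have h6 := hy ⟨m, by omega⟩ j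
        exact h6)
      rw [h3]
      refine ⟨hK1.trans (IntermediateField.adjoin.mono _ _ _ (Set.subset_insert _ _)), h4, fun a ha hal => ?_⟩
      refine h2 a (h5 a ha ?_) hal
      -- algebraic over the smaller field
      obtain ⟨p, hp, hpa⟩ := hal
      refine ⟨p.map (IntermediateField.inclusion hK1).toRingHom, ?_, ?_⟩
      · rw [Ne, Polynomial.map_eq_zero]
        exact hp
      · rw [Polynomial.aeval_def, Polynomial.eval₂_map]
        rw [Polynomial.aeval_def] at hpa
        exact hpa
  obtain ⟨_, h1, h2⟩ := key n le_rfl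
  have h3 : y '' {k : Fin n | (k : ℕ) < n} = Set.range y := by
    rw [← Set.image_univ]
    congr 1
    ext k
    simp
  rw [h3] at h1 h2
  exact ⟨h1, h2⟩

end Pool.Agent.Q311.KO
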