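import Pool.Agent.Q311.KO.Tower

/-!
# Ostrowski's theorem for analytic functions of several variables
-/

set_option autoImplicit false
set_option linter.unusedSectionVars false

open Filter Topology

namespace Pool.Agent.Q311.KO

open Pool.Agent.Y890.MV

variable {X : Type} [Fintype X] [DecidableEq X] {U : Set (X → ℂ)}

/-- the value at `x` of a polynomial in the functions `g` whose coefficients are polynomials in `x` and the functions
`f` -/
noncomputable def ev2 {σ τ : Type} (f : σ → (X → ℂ) → ℂ) (g : τ → (X → ℂ) → ℂ) (x : X → ℂ)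
    (F : MvPolynomial τ (MvPolynomial σ (MvPolynomial X ℂ))) : ℂ :=
  MvPolynomial.eval₂ (MvPolynomial.eval₂Hom (MvPolynomial.eval x) (fun i => f i x)) (fun t => g t x) F

theorem ev2_an {σ τ : Type} {f : σ → (X → ℂ) → ℂ} (hf : ∀ i, AnalyticOnNhd ℂ (f i) U) {g : τ → (X → ℂ) → ℂ}
    (hg : ∀ i, AnalyticOnNhd ℂ (g i) U) (F : MvPolynomial τ (MvPolynomial σ (MvPolynomial X ℂ))) :
    AnalyticOnNhd ℂ (fun x => ev2 f g x F) U := by
  induction F using MvPolynomial.induction_on with
  | C a =>
    have h1 : (fun x => ev2 f g x (MvPolynomial.C a)) = fun x => evM f x a := by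
      funext x
      unfold ev2
      rw [MvPolynomial.eval₂_C]
      rfl
    rw [h1]
    exact evM_an hf a
  | add p q hp hq =>
    have h1 : (fun x => ev2 f g x (p + q)) = fun x => ev2 f g x p + ev2 f g x q :=
      funext fun x => MvPolynomial.eval₂_add _ _
    rw [h1]
    exact an_add hp hq
  | mul_X p i hp =>
    have h1 : (fun x => ev2 f g x (p * MvPolynomial.X i)) = fun x => ev2 f g x p * g i x := by
      funext x
      unfold ev2
      rw [MvPolynomial.eval₂_mul, MvPolynomial.eval₂_X]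
    rw [h1]
    exact an_mul hp (hg i)

/-- **Ostrowski's theorem.** Let the field generated by the coordinates and the functions `f` be stable under the partial
derivatives, and let the differentials of the functions `g t` have coefficients in it. If no nontrivial linear
combination of the `g t` with constant coefficients is in the field, then the `g t` are algebraically independent
over it. -/
theorem ostM {σ τ : Type} [Fintype τ] (hU : IsPreconnected U) (hUo : IsOpen U) (hne : U.Nonempty)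
    (f : σ → (X → ℂ) → ℂ) (hf : ∀ i, AnalyticOnNhd ℂ (f i) U) (hcl : ∀ i, Prim U f (f i)) (g : τ → (X → ℂ) → ℂ)
    (hg : ∀ i, AnalyticOnNhd ℂ (g i) U) (hp : ∀ t, Prim U f (g t))
    (hind : ∀ (c : τ → ℂ) (P Q : MvPolynomial σ (MvPolynomial X ℂ)), (∃ x ∈ U, evM f x Q ≠ 0) →
      (∀ x ∈ U, evM f x Q * ∑ t, c t * g t x = evM f x P) → c = 0)
    (F : MvPolynomial τ (MvPolynomial σ (MvPolynomial X ℂ))) (hF : ∀ x ∈ U, ev2 f g x F = 0) (m : τ →₀ ℕ) :
    ∀ x ∈ U, evM f x (F.coeff m) = 0 := by
  classical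
  obtain ⟨M, iF, iA, D, T, hM⟩ := exists_mer hU hUo hne
  have hL := closed_gens hM hf hcl
  set L := IntermediateField.adjoin ℂ (gens T f hf) with hLd
  have hai : AlgebraicIndependent L (fm T g hg) := by
    refine ost_in hM.const L hL (fm T g hg) (fun j t => prim_mem hM hf (hg t) (hp t) j) ?_
    intro c hc
    obtain ⟨P, Q, hQ, hPQ⟩ := mem_gens f hf hc
    have h1 : ∑ t, algebraMap ℂ M (c t) * fm T g hg t = T (∑ t, algebraMap ℂ (AnR U) (c t) * mkA (g t) (hg t)) := by
      rw [map_sum]
      refine Finset.sum_congr rfl fun t _ => ?_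
      rw [map_mul, AlgHom.commutes]
      rfl
    rw [h1, ← map_mul] at hPQ
    have h2 := hM.inj hPQ
    rw [Ne, map_eq_zero_iff _ hM.inj, mkA_zero] at hQ
    push Not at hQ
    refine hind c P Q hQ fun x hx => ?_
    have h3 := congrFun (congrArg Subtype.val h2) ⟨x, hx⟩
    have h4 : ((∑ t, algebraMap ℂ (AnR U) (c t) * mkA (g t) (hg t) : AnR U) : U → ℂ) ⟨x, hx⟩ = ∑ t, c t * g t x := by
      rw [AddSubmonoidClass.coe_finsetSum, Finset.sum_apply]
      rfl
    rw [← h4]
    exact h3
  -- the coefficients in `L`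
  let φ : MvPolynomial σ (MvPolynomial X ℂ) →+* L :=
    (MvPolynomial.eval₂Hom (MvPolynomial.aeval (xc T)).toRingHom (fm T f hf)).codRestrict L (fun P => by
      have h1 := aeval_fm (T := T) f hf P
      change MvPolynomial.eval₂ _ _ P ∈ L
      rw [h1]
      exact ev_mem f hf P)
  have hφ : ∀ P, ((φ P : L) : M) = T (mkA (fun x => evM f x P) (evM_an hf P)) := fun P => aeval_fm f hf P
  have h1 : ∀ G : MvPolynomial τ (MvPolynomial σ (MvPolynomial X ℂ)), MvPolynomial.aeval (fm T g hg) (G.map φ) =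
      T (mkA (fun x => ev2 f g x G) (ev2_an hf hg G)) := by
    intro G
    induction G using MvPolynomial.induction_on with
    | C a =>
      rw [MvPolynomial.map_C, MvPolynomial.algHom_C]
      change ((φ a : L) : M) = _
      rw [hφ]
      congr 1
      refine mkA_eq.2 fun x _ => ?_
      unfold ev2
      rw [MvPolynomial.eval₂_C]
      rfl
    | add p q hp hq =>
      rw [map_add, map_add, hp, hq, ← map_add, mkA_add]
      congr 1
      exact mkA_eq.2 fun x _ => (MvPolynomial.eval₂_add _ _).symm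
    | mul_X p i hp =>
      rw [map_mul, map_mul, hp, MvPolynomial.map_X, MvPolynomial.aeval_X, fm, ← map_mul, mkA_mul]
      congr 1
      refine mkA_eq.2 fun x _ => ?_
      unfold ev2
      rw [MvPolynomial.eval₂_mul, MvPolynomial.eval₂_X]
  have h2 : F.map φ = 0 := by
    rw [algebraicIndependent_iff] at hai
    refine hai _ ?_
    rw [h1, mkA_zero.2 hF, map_zero]
  have h3 : φ (F.coeff m) = 0 := by
    rw [← MvPolynomial.coeff_map, h2, MvPolynomial.coeff_zero]
  have h4 : T (mkA (fun x => evM f x (F.coeff m)) (evM_an hf (F.coeff m))) = 0 := by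
    rw [← hφ, h3]
    rfl
  rw [map_eq_zero_iff _ hM.inj, mkA_zero] at h4
  exact h4

/-- separate two kinds of variables -/
noncomputable def sep {σ τ : Type} (F : MvPolynomial (σ ⊕ τ) (MvPolynomial X ℂ)) :
    MvPolynomial τ (MvPolynomial σ (MvPolynomial X ℂ)) :=
  MvPolynomial.sumAlgEquiv (MvPolynomial X ℂ) τ σ (MvPolynomial.rename Sum.swap F)

theorem sep_eval {σ τ : Type} (F : MvPolynomial (σ ⊕ τ) (MvPolynomial X ℂ)) (x : X → ℂ) (A : σ → ℂ) (w : τ → ℂ) :
    MvPolynomial.eval₂ (MvPolynomial.eval₂Hom (MvPolynomial.eval x) A) w (sep F) =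
      MvPolynomial.eval₂ (MvPolynomial.eval x) (Sum.elim A w) F := by
  unfold sep
  induction F using MvPolynomial.induction_on with
  | C a =>
    rw [MvPolynomial.rename_C, MvPolynomial.sumAlgEquiv_C_inl, MvPolynomial.eval₂_C, MvPolynomial.eval₂Hom_C,
      MvPolynomial.eval₂_C]
  | add p q hp hq => rw [map_add, map_add, MvPolynomial.eval₂_add, MvPolynomial.eval₂_add, hp, hq]
  | mul_X p i hp =>
    rw [map_mul, map_mul, MvPolynomial.eval₂_mul, MvPolynomial.eval₂_mul, hp, MvPolynomial.rename_X]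
    congr 1
    rcases i with i | i
    · rw [Sum.swap_inl, MvPolynomial.sumAlgEquiv_X_inr, MvPolynomial.eval₂_C, MvPolynomial.eval₂Hom_X',
        MvPolynomial.eval₂_X]
      rfl
    · rw [Sum.swap_inr, MvPolynomial.sumAlgEquiv_X_inl, MvPolynomial.eval₂_X, MvPolynomial.eval₂_X]
      rfl

/-- relations between `f` and `g`, for `g` primitives as in Ostrowski's theorem, hold for all values of `g` -/
theorem ost_all {σ τ : Type} [Fintype τ] (hU : IsPreconnected U) (hUo : IsOpen U) (hne : U.Nonempty)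
    (f : σ → (X → ℂ) → ℂ) (hf : ∀ i, AnalyticOnNhd ℂ (f i) U) (hcl : ∀ i, Prim U f (f i)) (g : τ → (X → ℂ) → ℂ)
    (hg : ∀ i, AnalyticOnNhd ℂ (g i) U) (hp : ∀ t, Prim U f (g t))
    (hind : ∀ (c : τ → ℂ) (P Q : MvPolynomial σ (MvPolynomial X ℂ)), (∃ x ∈ U, evM f x Q ≠ 0) →
      (∀ x ∈ U, evM f x Q * ∑ t, c t * g t x = evM f x P) → c = 0)
    (F : MvPolynomial (σ ⊕ τ) (MvPolynomial X ℂ)) (hF : ∀ x ∈ U, evM (Sum.elim f g) x F = 0)
    {x : X → ℂ} {A : σ → ℂ} (hA : ∀ p : MvPolynomial σ (MvPolynomial X ℂ), (∀ x ∈ U, evM f x p = 0) →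
      MvPolynomial.eval₂ (MvPolynomial.eval x) A p = 0) (w : τ → ℂ) :
    MvPolynomial.eval₂ (MvPolynomial.eval x) (Sum.elim A w) F = 0 := by
  rw [← sep_eval, MvPolynomial.eval₂_eq]
  refine Finset.sum_eq_zero fun m _ => ?_
  have h1 := ostM hU hUo hne f hf hcl g hg hp hind (sep F) (fun y hy => by
    have h2 := hF y hy
    unfold ev2
    rw [sep_eval]
    have h3 : Sum.elim (fun i => f i y) (fun t => g t y) = fun i => Sum.elim f g i y := by
      funext i
      rcases i with i | i <;> rfl
    rw [h3]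
    exact h2) m
  have h2 : (MvPolynomial.eval₂Hom (MvPolynomial.eval x) A) ((sep F).coeff m) = 0 := hA _ h1
  rw [h2, zero_mul]

end Pool.Agent.Q311.KO
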