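import Pool.Agent.Q311.KO.Kol
import Pool.Agent.Q311.KO.Ostm
import Pool.Agent.Q311.MV.Ind

/-!
# Functions with algebraic differentials, and exponentials of such functions
-/

set_option autoImplicit false
set_option linter.unusedSectionVars false

open Filter Topology

namespace Pool.Agent.Q311.KO

open Pool.Agent.Y890.MV

section alg

variable {M X : Type} [Field M] [Algebra ℂ M] {D : X → Derivation ℂ M M}

/-- the polynomial with the derivatives of the coefficients -/
noncomputable def dc (L : IntermediateField ℂ M) (hL : Closed D L) (j : X) (p : Polynomial L) : Polynomial L :=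
  ∑ i ∈ p.support, Polynomial.monomial i (resD L hL j (p.coeff i))

theorem dc_coeff (L : IntermediateField ℂ M) (hL : Closed D L) (j : X) (p : Polynomial L) (n : ℕ) :
    (dc L hL j p).coeff n = resD L hL j (p.coeff n) := by
  unfold dc
  rw [Polynomial.finsetSum_coeff]
  simp only [Polynomial.coeff_monomial]
  rw [Finset.sum_ite_eq']
  split_ifs with h
  · rfl
  · rw [Polynomial.notMem_support_iff.1 h, map_zero]

theorem dc_eval (L : IntermediateField ℂ M) (hL : Closed D L) (j : X) (a : M) (p : Polynomial L) :
    D j (Polynomial.aeval a p) = Polynomial.aeval a (dc L hL j p) + Polynomial.aeval a (Polynomial.derivative p) *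
      D j a := by
  induction p using Polynomial.induction_on' with
  | add p q hp hq =>
    have h1 : dc L hL j (p + q) = dc L hL j p + dc L hL j q := by
      refine Polynomial.ext fun n => ?_
      rw [Polynomial.coeff_add, dc_coeff, dc_coeff, dc_coeff, Polynomial.coeff_add, map_add]
    rw [h1, map_add, map_add, map_add, map_add, map_add, hp, hq]
    ring
  | monomial n c =>
    have h1 : dc L hL j (Polynomial.monomial n c) = Polynomial.monomial n (resD L hL j c) := by
      refine Polynomial.ext fun i => ?_
      rw [dc_coeff, Polynomial.coeff_monomial, Polynomial.coeff_monomial]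
      split_ifs with h
      · rfl
      · rw [map_zero]
    rw [h1, Polynomial.derivative_monomial, Polynomial.aeval_monomial, Polynomial.aeval_monomial,
      Polynomial.aeval_monomial, Derivation.leibniz, Derivation.leibniz_pow]
    simp only [smul_eq_mul, nsmul_eq_mul, map_mul, map_natCast]
    have h2 : algebraMap L M (resD L hL j c) = D j (algebraMap L M c) := rfl
    rw [h2]
    ring

/-- derivatives of algebraic elements are algebraic -/
theorem der_alg (F : IntermediateField ℂ M) (hF : Closed D F) {a : M} (ha : IsAlgebraic F a) (j : X) :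
    IsAlgebraic F (D j a) := by
  have hch : CharZero M := charZero_of_injective_algebraMap (algebraMap ℂ M).injective
  have hchF : CharZero F := charZero_of_injective_algebraMap (algebraMap ℂ F).injective
  have hint := ha.isIntegral
  have h1 := dc_eval F hF j a (minpoly F a)
  rw [minpoly.aeval, map_zero] at h1
  have h2 : Polynomial.aeval a (Polynomial.derivative (minpoly F a)) ≠ 0 :=
    (minpoly.irreducible hint).separable.aeval_derivative_ne_zero (minpoly.aeval F a)
  have h3 : D j a = -Polynomial.aeval a (dc F hF j (minpoly F a)) /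
      Polynomial.aeval a (Polynomial.derivative (minpoly F a)) := by
    rw [eq_div_iff h2]
    linear_combination -h1
  have h4 : D j a ∈ IntermediateField.adjoin F {a} := by
    rw [h3]
    have h5 : ∀ p : Polynomial F, Polynomial.aeval a p ∈ IntermediateField.adjoin F {a} := by
      intro p
      exact IntermediateField.algebra_adjoin_le_adjoin F {a} (Polynomial.aeval_mem_adjoin_singleton F a)
    exact div_mem (neg_mem (h5 _)) (h5 _)
  have h6 : Algebra.IsAlgebraic F (IntermediateField.adjoin F {a}) := IntermediateField.isAlgebraic_adjoin_simple hint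
  have h7 := h6.isAlgebraic (⟨D j a, h4⟩ : IntermediateField.adjoin F {a})
  exact h7.algebraMap (A := M)

/-- the algebraic elements form a stable field -/
theorem closed_alg (F : IntermediateField ℂ M) (hF : Closed D F) :
    Closed D ((algebraicClosure F M).restrictScalars ℂ) := by
  intro j a ha
  rw [IntermediateField.mem_restrictScalars, mem_algebraicClosure_iff] at ha ⊢
  exact der_alg F hF ha j

end alg

variable {X : Type} [Fintype X] [DecidableEq X] {U : Set (X → ℂ)}

/-- algebraic functions: roots of polynomials with coefficients in `ℂ[x]` -/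
def AlgFun (U : Set (X → ℂ)) (h : (X → ℂ) → ℂ) : Prop :=
  ∃ R : Polynomial (MvPolynomial X ℂ), R ≠ 0 ∧ ∀ x ∈ U, (R.map (MvPolynomial.eval x)).eval (h x) = 0

variable {M : Type} [Field M] [Algebra ℂ M] {D : X → Derivation ℂ M M} {T : AnR U →ₐ[ℂ] M}

theorem root_an (R : Polynomial (MvPolynomial X ℂ)) {h : (X → ℂ) → ℂ} (hh : AnalyticOnNhd ℂ h U) :
    AnalyticOnNhd ℂ (fun x => (R.map (MvPolynomial.eval x)).eval (h x)) U := by
  have h1 : (fun x => (R.map (MvPolynomial.eval x)).eval (h x)) =
      fun x => ∑ i ∈ Finset.range (R.natDegree + 1), MvPolynomial.eval x (R.coeff i) * h x ^ i := by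
    funext x
    rw [Polynomial.eval_map, Polynomial.eval₂_eq_sum_range]
  rw [h1]
  intro x hx
  refine Finset.analyticAt_fun_sum _ fun i _ => ?_
  exact (poly_an (U := U) (R.coeff i) x hx).mul ((hh x hx).pow i)

theorem root_T (R : Polynomial (MvPolynomial X ℂ)) {h : (X → ℂ) → ℂ} (hh : AnalyticOnNhd ℂ h U) :
    R.eval₂ (MvPolynomial.aeval (xc T)).toRingHom (T (mkA h hh)) =
      T (mkA (fun x => (R.map (MvPolynomial.eval x)).eval (h x)) (root_an R hh)) := by
  rw [Polynomial.eval₂_eq_sum_range]
  have h1 : mkA (fun x => (R.map (MvPolynomial.eval x)).eval (h x)) (root_an R hh) =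
      ∑ i ∈ Finset.range (R.natDegree + 1), mkA (fun x => MvPolynomial.eval x (R.coeff i)) (poly_an _) * mkA h hh ^ i := by
    refine Subtype.ext (funext fun x => ?_)
    rw [AddSubmonoidClass.coe_finsetSum, Finset.sum_apply]
    change (R.map (MvPolynomial.eval (x : X → ℂ))).eval (h x) = _
    rw [Polynomial.eval_map, Polynomial.eval₂_eq_sum_range]
    rfl
  rw [h1, map_sum]
  refine Finset.sum_congr rfl fun i _ => ?_
  rw [map_mul, map_pow, ← aeval_xc]
  rfl

theorem alg_iff (hM : IsMer U M D T) (hUo : IsOpen U) (hne : U.Nonempty) {h : (X → ℂ) → ℂ}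
    (hh : AnalyticOnNhd ℂ h U) : AlgFun U h ↔ IsAlgebraic (k0 T) (T (mkA h hh)) := by
  constructor
  · rintro ⟨R, hR, hRh⟩
    let ψ : MvPolynomial X ℂ →+* k0 T :=
      (MvPolynomial.aeval (xc T)).toRingHom.codRestrict (k0 T) (fun p => aeval_mem_k0 p)
    have hψinj : Function.Injective ψ := by
      rw [injective_iff_map_eq_zero]
      intro p hp
      exact aeval_xc_inj hM.inj hUo hne (congrArg Subtype.val hp)
    refine ⟨R.map ψ, ?_, ?_⟩
    · rw [Ne, Polynomial.map_eq_zero_iff hψinj]
      exact hR
    · rw [Polynomial.aeval_def, Polynomial.eval₂_map]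
      have h1 := root_T (T := T) R hh
      rw [mkA_zero.2 hRh, map_zero] at h1
      exact h1
  · intro h1
    obtain ⟨R, hR, hRa⟩ := alg_poly h1
    refine ⟨R, hR, ?_⟩
    rw [root_T R hh, map_eq_zero_iff _ hM.inj] at hRa
    exact mkA_zero.1 hRa

theorem closed_k0 (hM : IsMer U M D T) : Closed D (k0 T) := by
  refine closed_adjoin _ ?_
  rintro j s ⟨i, rfl⟩
  rw [xc, hM.der]
  have h1 : mkA (pd j fun x : X → ℂ => x i) (pd_an j (an_coord i)) =
      algebraMap ℂ (AnR U) (if i = j then 1 else 0) := by
    rw [mkA_const]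
    exact mkA_eq.2 fun x _ => pd_coord i j x
  rw [h1, AlgHom.commutes]
  exact IntermediateField.algebraMap_mem _ _

theorem exp_an {w : (X → ℂ) → ℂ} (hw : AnalyticOnNhd ℂ w U) : AnalyticOnNhd ℂ (fun x => Complex.exp (w x)) U :=
  fun x hx => (hw x hx).cexp

theorem pd_exp (j : X) {w : (X → ℂ) → ℂ} {x : X → ℂ} (hw : AnalyticAt ℂ w x) :
    pd j (fun x => Complex.exp (w x)) x = pd j w x * Complex.exp (w x) := by
  unfold pd
  rw [hw.differentiableAt.hasFDerivAt.cexp.fderiv, ContinuousLinearMap.smul_apply, smul_eq_mul]
  ring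

/-- **Functions with algebraic differentials and exponentials of such functions**: if no nontrivial linear combination of
the `u i` with constant coefficients is algebraic, and no nontrivial monomial in the `exp (w k)`, then the functions `u i`
and `exp (w k)` are algebraically independent over the rational functions -/
theorem indep_kol (hU : IsPreconnected U) (hUo : IsOpen U) (hne : U.Nonempty) {n : ℕ} (u : Fin n → (X → ℂ) → ℂ)
    (hu : ∀ i, AnalyticOnNhd ℂ (u i) U) (hu' : ∀ i j, AlgFun U (fun x => fderiv ℂ (u i) x (Pi.single j 1)))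
    {κ : Type} [Fintype κ] (w : κ → (X → ℂ) → ℂ) (hw : ∀ k, AnalyticOnNhd ℂ (w k) U)
    (hw' : ∀ k j, AlgFun U (fun x => fderiv ℂ (w k) x (Pi.single j 1)))
    (hlin : ∀ c : Fin n → ℂ, AlgFun U (fun x => ∑ i, c i * u i x) → c = 0)
    (hmult : ∀ m : κ → ℤ, AlgFun U (fun x => Complex.exp (∑ k, m k * w k x)) → m = 0) :
    Pool.Agent.Q311.MV.IndepM U (Sum.elim (fun k x => Complex.exp (w k x)) u) := by
  classical
  obtain ⟨M, iF, iA, D, T, hM⟩ := exists_mer hU hUo hne
  set A : IntermediateField ℂ M := (algebraicClosure (k0 T) M).restrictScalars ℂ with hAd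
  have hAmem : ∀ a, a ∈ A ↔ IsAlgebraic (k0 T) a := by
    intro a
    rw [hAd, IntermediateField.mem_restrictScalars, mem_algebraicClosure_iff]
  have hAc : Closed D A := closed_alg (k0 T) (closed_k0 hM)
  have hAS : IntermediateField.adjoin ℂ (A : Set M) = A := IntermediateField.adjoin_self ℂ A
  have hea : ∀ k, AnalyticOnNhd ℂ (fun x => Complex.exp (w k x)) U := fun k => exp_an (hw k)
  have hsuman : ∀ (s : Finset κ) (m : κ → ℤ), AnalyticOnNhd ℂ (fun x => Complex.exp (∑ k ∈ s, m k * w k x)) U := by
    intro s m
    refine exp_an (fun x hx => Finset.analyticAt_fun_sum _ fun k _ => ?_)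
    exact analyticAt_const.mul (hw k x hx)
  -- monomials in the exponentials
  have hprod : ∀ m : κ → ℤ, ∏ k, fm T (fun k x => Complex.exp (w k x)) hea k ^ m k =
      T (mkA (fun x => Complex.exp (∑ k, m k * w k x)) (hsuman Finset.univ m)) := by
    intro m
    have hexp0 : ∀ (f : (X → ℂ) → ℂ) (hf : AnalyticOnNhd ℂ (fun x => Complex.exp (f x)) U),
        T (mkA (fun x => Complex.exp (f x)) hf) ≠ 0 := by
      intro f hf
      rw [Ne, map_eq_zero_iff _ hM.inj, mkA_zero]
      intro h
      obtain ⟨x, hx⟩ := hne
      exact Complex.exp_ne_zero _ (h x hx)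
    have hnat : ∀ (k : κ) (l : ℕ) (h : AnalyticOnNhd ℂ (fun x => Complex.exp ((l : ℂ) * w k x)) U),
        fm T (fun k x => Complex.exp (w k x)) hea k ^ l = T (mkA (fun x => Complex.exp ((l : ℂ) * w k x)) h) := by
      intro k l h
      rw [fm, ← map_pow]
      congr 1
      refine Subtype.ext (funext fun x => ?_)
      change Complex.exp (w k x) ^ l = Complex.exp ((l : ℂ) * w k x)
      rw [Complex.exp_nat_mul]
    have hint : ∀ (k : κ) (l : ℤ) (h : AnalyticOnNhd ℂ (fun x => Complex.exp ((l : ℂ) * w k x)) U),
        fm T (fun k x => Complex.exp (w k x)) hea k ^ l = T (mkA (fun x => Complex.exp ((l : ℂ) * w k x)) h) := by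
      intro k l h
      rcases l with l | l
      · have h1 : AnalyticOnNhd ℂ (fun x => Complex.exp ((l : ℂ) * w k x)) U :=
          exp_an fun x hx => analyticAt_const.mul (hw k x hx)
        refine (zpow_natCast _ l).trans ((hnat k l h1).trans ?_)
        congr 1
      · have h1 : AnalyticOnNhd ℂ (fun x => Complex.exp (((l + 1 : ℕ) : ℂ) * w k x)) U :=
          exp_an fun x hx => analyticAt_const.mul (hw k x hx)
        rw [zpow_negSucc, hnat k (l + 1) h1]
        refine inv_eq_of_mul_eq_one_right ?_
        rw [← map_mul, mkA_mul, ← map_one T]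
        congr 1
        refine Subtype.ext (funext fun x => ?_)
        change Complex.exp (((l + 1 : ℕ) : ℂ) * w k x) * Complex.exp (((Int.negSucc l : ℤ) : ℂ) * w k x) = 1
        rw [← Complex.exp_add, Int.cast_negSucc, ← add_mul, add_neg_cancel, zero_mul, Complex.exp_zero]
    have hs : ∀ s : Finset κ, ∏ k ∈ s, fm T (fun k x => Complex.exp (w k x)) hea k ^ m k =
        T (mkA (fun x => Complex.exp (∑ k ∈ s, m k * w k x)) (hsuman s m)) := by
      intro s
      induction s using Finset.induction_on with
      | empty =>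
        rw [Finset.prod_empty, ← map_one T]
        congr 1
        refine Subtype.ext (funext fun x => ?_)
        change (1 : ℂ) = Complex.exp (∑ k ∈ (∅ : Finset κ), (m k : ℂ) * w k x)
        rw [Finset.sum_empty, Complex.exp_zero]
      | insert k s hk ih =>
        have h1 : AnalyticOnNhd ℂ (fun x => Complex.exp ((m k : ℂ) * w k x)) U :=
          exp_an fun x hx => analyticAt_const.mul (hw k x hx)
        rw [Finset.prod_insert hk, ih, hint k (m k) h1, ← map_mul, mkA_mul]
        congr 1
        refine mkA_eq.2 fun x _ => ?_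
        rw [← Complex.exp_add, Finset.sum_insert hk]
    exact hs Finset.univ
  have hkol : AlgebraicIndependent (IntermediateField.adjoin ℂ (A : Set M))
      (Sum.elim (fm T (fun k x => Complex.exp (w k x)) hea) (fm T u hu)) := by
    refine kol hM.const (A : Set M) (by rw [hAS]; exact hAc) (fm T u hu) ?_ ?_ _ ?_ ?_ ?_
    · intro i j
      rw [hAS, hAmem, fm, hM.der]
      exact (alg_iff hM hUo hne (pd_an j (hu i))).1 (hu' i j)
    · intro c hc
      rw [hAS, hAmem] at hc
      have h1 : AnalyticOnNhd ℂ (fun x => ∑ i, c i * u i x) U :=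
        fun x hx => Finset.analyticAt_fun_sum _ fun i _ => analyticAt_const.mul (hu i x hx)
      have h2 : ∑ i, algebraMap ℂ M (c i) * fm T u hu i = T (mkA (fun x => ∑ i, c i * u i x) h1) := by
        have h3 : mkA (fun x => ∑ i, c i * u i x) h1 = ∑ i, algebraMap ℂ (AnR U) (c i) * mkA (u i) (hu i) := by
          refine Subtype.ext (funext fun x => ?_)
          rw [AddSubmonoidClass.coe_finsetSum, Finset.sum_apply]
          rfl
        rw [h3, map_sum]
        refine Finset.sum_congr rfl fun i _ => ?_
        rw [map_mul, AlgHom.commutes]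
        rfl
      rw [h2] at hc
      exact hlin c ((alg_iff hM hUo hne h1).2 hc)
    · intro k
      rw [fm, Ne, map_eq_zero_iff _ hM.inj, mkA_zero]
      intro h
      obtain ⟨x, hx⟩ := hne
      exact Complex.exp_ne_zero _ (h x hx)
    · intro j k
      refine ⟨T (mkA (pd j (w k)) (pd_an j (hw k))), ?_, ?_⟩
      · rw [hAS, hAmem]
        exact (alg_iff hM hUo hne (pd_an j (hw k))).1 (hw' k j)
      · rw [fm, hM.der, ← map_mul, mkA_mul]
        congr 1
        exact mkA_eq.2 fun x hx => pd_exp j (hw k x hx)
    · intro m hm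
      rw [hAS, hAmem, hprod] at hm
      exact hmult m ((alg_iff hM hUo hne (hsuman Finset.univ m)).2 hm)
  intro p hp
  -- as a polynomial over the field
  let ψ : MvPolynomial X ℂ →+* IntermediateField.adjoin ℂ (A : Set M) :=
    (MvPolynomial.aeval (xc T)).toRingHom.codRestrict (IntermediateField.adjoin ℂ (A : Set M)) (fun p => by
      change MvPolynomial.aeval (xc T) p ∈ _
      rw [hAS, hAmem]
      exact isAlgebraic_algebraMap (⟨_, aeval_mem_k0 p⟩ : k0 T))
  have hψinj : Function.Injective ψ := by
    rw [injective_iff_map_eq_zero]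
    intro p hp
    exact aeval_xc_inj hM.inj hUo hne (congrArg Subtype.val hp)
  have hfa := an_elim hea hu
  have h1 : MvPolynomial.aeval (Sum.elim (fm T (fun k x => Complex.exp (w k x)) hea) (fm T u hu)) (p.map ψ) =
      T (mkA (fun x => evM (Sum.elim (fun k x => Complex.exp (w k x)) u) x p) (evM_an hfa p)) := by
    rw [← aeval_fm _ hfa, MvPolynomial.aeval_def, MvPolynomial.eval₂_map]
    congr 1
    funext i
    rcases i with i | i <;> rfl
  rw [mkA_zero.2 hp, map_zero] at h1
  rw [algebraicIndependent_iff] at hkol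
  have h2 := hkol _ h1
  exact MvPolynomial.map_injective ψ hψinj (by rw [h2, map_zero])

end Pool.Agent.Q311.KO
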