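import Pool.Agent.Q311.KO.Log

/-!
# Exponentials of polynomials and logarithms of polynomials are independent functions
-/

set_option autoImplicit false
set_option linter.unusedSectionVars false

open Filter Topology MvPolynomial

namespace Pool.Agent.Q311.KO

open Pool.Agent.Y890.MV

variable {X : Type} [Fintype X] [DecidableEq X] {U : Set (X → ℂ)}
  {M : Type} [Field M] [Algebra ℂ M] {D : X → Derivation ℂ M M} {T : AnR U →ₐ[ℂ] M}

/-- partial derivatives of polynomials in `M` -/
theorem D_aeval (hM : IsMer U M D T) (j : X) (p : MvPolynomial X ℂ) :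
    D j (aeval (xc T) p) = aeval (xc T) (pderiv j p) := by
  induction p using MvPolynomial.induction_on with
  | C a => rw [algHom_C, Derivation.map_algebraMap, pderiv_C, map_zero]
  | add p q hp hq => rw [map_add, map_add, map_add, map_add, hp, hq]
  | mul_X p i hp =>
    rw [map_mul, aeval_X, Derivation.leibniz, hp, Derivation.leibniz, map_add, smul_eq_mul, smul_eq_mul, smul_eq_mul,
      smul_eq_mul, map_mul, map_mul, aeval_X]
    congr 1
    rw [pderiv_X, xc, hM.der]
    congr 1
    have h1 : mkA (pd j fun x : X → ℂ => x i) (pd_an j (an_coord i)) =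
        algebraMap ℂ (AnR U) (if i = j then 1 else 0) := by
      rw [mkA_const]
      exact mkA_eq.2 fun x _ => pd_coord i j x
    rw [h1, AlgHom.commutes]
    by_cases hij : i = j
    · subst hij
      simp
    · rw [if_neg hij, Pi.single_eq_of_ne hij, map_zero, map_zero]

/-- algebraic elements whose logarithmic derivative is that of the exponential of a polynomial -/
theorem exp_const (hM : IsMer U M D T) (hUo : IsOpen U) (hne : U.Nonempty) {y : M} (hy0 : y ≠ 0)
    (ψ : MvPolynomial X ℂ) (hy : ∀ j, D j y = aeval (xc T) (pderiv j ψ) * y) (ha : IsAlgebraic (k0 T) y) :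
    ∃ c : ℂ, ψ = C c := by
  classical
  by_contra hcon
  push Not at hcon
  obtain ⟨j, hj⟩ := exists_pderiv_ne hcon
  -- a power is rational
  obtain ⟨n, hn, hny⟩ : ∃ n : ℤ, n ≠ 0 ∧ y ^ n ∈ k0 T := by
    by_contra hno
    push Not at hno
    have h1 : AlgebraicIndependent (k0 T) (fun _ : Unit => y) := by
      refine expo hM.const (k0 T) (closed_k0 hM) (fun _ : Unit => y) (fun _ => hy0)
        (fun j _ => aeval (xc T) (pderiv j ψ)) (fun j _ => aeval_mem_k0 _) (fun j _ => hy j) ?_
      intro n hn
      rw [Fintype.prod_unique] at hn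
      by_contra hne'
      refine hno (n default) ?_ hn
      intro h0
      apply hne'
      funext u
      rw [Unique.eq_default u, h0]
      rfl
    exact ((algebraicIndependent_unique_type_iff (R := k0 T) (x := fun _ : Unit => y)).1 h1) ha
  obtain ⟨r, s, hs, hrs⟩ := mem_k0 hny
  have hPs : aeval (xc T) s ≠ 0 := fun h => hs (aeval_xc_inj hM.inj hUo hne h)
  have hyn : y ^ n ≠ 0 := zpow_ne_zero _ hy0
  have hr : r ≠ 0 := by
    rintro rfl
    rw [map_zero] at hrs
    exact mul_ne_zero hPs hyn hrs
  have h2 : D j (y ^ n) = (n : M) * aeval (xc T) (pderiv j ψ) * y ^ n := by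
    rw [Derivation.leibniz_zpow, hy, smul_eq_mul, zsmul_eq_mul]
    have h5 : y ^ n = y ^ (n - 1) * y := by
      rw [← zpow_add_one₀ hy0, sub_add_cancel]
    rw [h5]
    ring
  have h3 := congrArg (D j) hrs
  rw [Derivation.leibniz, h2, D_aeval hM, D_aeval hM, smul_eq_mul, smul_eq_mul] at h3
  have h4 : aeval (xc T) (C (n : ℂ) * s * pderiv j ψ * r) = aeval (xc T) (s * pderiv j r - r * pderiv j s) := by
    rw [map_sub, map_mul, map_mul, map_mul, map_mul, map_mul, algHom_C, map_intCast, ← h3, ← hrs]
    ring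
  have h5 : C (n : ℂ) * s * pderiv j ψ * r = s * pderiv j r - r * pderiv j s := by
    rw [← sub_eq_zero]
    refine aeval_xc_inj hM.inj hUo hne ?_
    rw [map_sub, h4, sub_self]
  exact hj (exp_poly j (Int.cast_ne_zero.2 hn) hr hs h5)

/-- linear combinations of logarithms of polynomials which are algebraic -/
theorem log_zero (hM : IsMer U M D T) (hUo : IsOpen U) (hne : U.Nonempty) {ι : Type} [Fintype ι] [DecidableEq ι]
    (φ : ι → MvPolynomial X ℂ) (hφ : ∀ k, φ k ≠ 0) (l : ι → M)
    (hl : ∀ j k, aeval (xc T) (φ k) * D j (l k) = aeval (xc T) (pderiv j (φ k)))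
    (hirr : ∀ k, ∃ p, Irreducible p ∧ p ∣ φ k ∧ ∀ k', k' ≠ k → ¬ p ∣ φ k') (c : ι → ℂ)
    (h : IsAlgebraic (k0 T) (∑ k, algebraMap ℂ M (c k) * l k)) : c = 0 := by
  classical
  have hφM : ∀ k, aeval (xc T) (φ k) ≠ 0 := fun k h => hφ k (aeval_xc_inj hM.inj hUo hne h)
  have hDl : ∀ j k, D j (l k) = aeval (xc T) (pderiv j (φ k)) / aeval (xc T) (φ k) := by
    intro j k
    rw [← hl, mul_div_cancel_left₀ _ (hφM k)]
  -- the derivative of partial sums
  have hsum : ∀ (j : X) (s : Finset ι), ∃ N : MvPolynomial X ℂ,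
      aeval (xc T) (∏ k ∈ s, φ k) * D j (∑ k ∈ s, algebraMap ℂ M (c k) * l k) = aeval (xc T) N := by
    intro j s
    induction s using Finset.induction_on with
    | empty => exact ⟨0, by simp⟩
    | insert k s hk ih =>
      obtain ⟨N, hN⟩ := ih
      refine ⟨C (c k) * pderiv j (φ k) * (∏ k ∈ s, φ k) + φ k * N, ?_⟩
      have h1 : D j (algebraMap ℂ M (c k) * l k + ∑ k ∈ s, algebraMap ℂ M (c k) * l k) =
          algebraMap ℂ M (c k) * D j (l k) + D j (∑ k ∈ s, algebraMap ℂ M (c k) * l k) := by
        rw [map_add, Derivation.leibniz, Derivation.map_algebraMap, smul_zero, add_zero, smul_eq_mul]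
      have h2 : aeval (xc T) (C (c k) * pderiv j (φ k) * (∏ k ∈ s, φ k) + φ k * N) =
          algebraMap ℂ M (c k) * aeval (xc T) (pderiv j (φ k)) * aeval (xc T) (∏ k ∈ s, φ k) +
            aeval (xc T) (φ k) * aeval (xc T) N := by
        simp only [map_add, map_mul, algHom_C]
      have h3 : aeval (xc T) (φ k * ∏ k ∈ s, φ k) = aeval (xc T) (φ k) * aeval (xc T) (∏ k ∈ s, φ k) := map_mul _ _ _
      rw [Finset.prod_insert hk, Finset.sum_insert hk, h1, h2, h3, ← hN, ← hl j k]
      ring
  have hmem : ∑ k, algebraMap ℂ M (c k) * l k ∈ k0 T := by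
    refine mem_of_alg hM.const (k0 T) (closed_k0 hM) _ (fun j => ?_) h
    rw [map_sum]
    refine sum_mem fun k _ => ?_
    rw [Derivation.leibniz, Derivation.map_algebraMap, smul_zero, add_zero, smul_eq_mul, hDl]
    exact mul_mem ((k0 T).algebraMap_mem _) (div_mem (aeval_mem_k0 _) (aeval_mem_k0 _))
  obtain ⟨A0, B0, hB0, hAB0⟩ := mem_k0 hmem
  obtain ⟨B, A, e, hrel, hBe, hAe⟩ := UniqueFactorizationMonoid.exists_reduced_factors B0 hB0 A0
  have he : e ≠ 0 := by
    rintro rfl
    rw [zero_mul] at hBe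
    exact hB0 hBe.symm
  have hB : B ≠ 0 := by
    rintro rfl
    rw [mul_zero] at hBe
    exact hB0 hBe.symm
  have heM : aeval (xc T) e ≠ 0 := fun h => he (aeval_xc_inj hM.inj hUo hne h)
  have hAB : aeval (xc T) B * ∑ k, algebraMap ℂ M (c k) * l k = aeval (xc T) A := by
    rw [← hBe, ← hAe, map_mul, map_mul, mul_assoc] at hAB0
    exact mul_left_cancel₀ heM hAB0
  funext k0'
  obtain ⟨p, hp, hpk, hpo⟩ := hirr k0'
  have hpp : Prime p := hp.prime
  have hpc : ∀ z : ℂ, p ≠ C z := by
    intro z hz
    by_cases hz0 : z = 0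
    · rw [hz0, map_zero] at hz
      exact hpp.ne_zero hz
    · apply hpp.not_isUnit
      rw [hz]
      exact (isUnit_iff_ne_zero.2 hz0).map C
  obtain ⟨j, hj⟩ := exists_pderiv_ne hpc
  obtain ⟨N, hN⟩ := hsum j (Finset.univ.erase k0')
  set Ψ : MvPolynomial X ℂ := ∏ k ∈ Finset.univ.erase k0', φ k with hΨ
  have hpΨ : ¬ p ∣ Ψ := by
    intro hdvd
    obtain ⟨k, hk, hkd⟩ := (Prime.dvd_finsetProd_iff hpp φ).1 hdvd
    exact hpo k (Finset.ne_of_mem_erase hk) hkd
  have h1 : (∑ k, algebraMap ℂ M (c k) * l k) = algebraMap ℂ M (c k0') * l k0' +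
      ∑ k ∈ Finset.univ.erase k0', algebraMap ℂ M (c k) * l k := (Finset.add_sum_erase _ _ (Finset.mem_univ k0')).symm
  set S : M := ∑ k ∈ Finset.univ.erase k0', algebraMap ℂ M (c k) * l k with hS
  have h2 := congrArg (D j) hAB
  rw [Derivation.leibniz, D_aeval hM, D_aeval hM, smul_eq_mul, smul_eq_mul] at h2
  have h3 : D j (∑ k, algebraMap ℂ M (c k) * l k) = algebraMap ℂ M (c k0') * D j (l k0') + D j S := by
    rw [h1, map_add, Derivation.leibniz, Derivation.map_algebraMap, smul_zero, add_zero, smul_eq_mul]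
  have h4 : aeval (xc T) (B ^ 2 * (C (c k0') * pderiv j (φ k0') * Ψ + φ k0' * N)) =
      aeval (xc T) (φ k0' * Ψ * (B * pderiv j A - A * pderiv j B)) := by
    have h5 : aeval (xc T) (C (c k0') * pderiv j (φ k0') * Ψ + φ k0' * N) =
        aeval (xc T) (φ k0' * Ψ) * D j (∑ k, algebraMap ℂ M (c k) * l k) := by
      rw [h3, map_add, map_mul, map_mul, map_mul, map_mul, algHom_C, ← hN, ← hl j k0']
      ring
    have h6 : aeval (xc T) (B * pderiv j A - A * pderiv j B) =
        aeval (xc T) B ^ 2 * D j (∑ k, algebraMap ℂ M (c k) * l k) := by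
      rw [map_sub, map_mul, map_mul, ← h2, ← hAB]
      ring
    rw [map_mul, map_pow, h5, map_mul _ (φ k0' * Ψ) _, h6]
    ring
  have h5 : B ^ 2 * (C (c k0') * pderiv j (φ k0') * Ψ + φ k0' * N) =
      φ k0' * Ψ * (B * pderiv j A - A * pderiv j B) := by
    rw [← sub_eq_zero]
    refine aeval_xc_inj hM.inj hUo hne ?_
    rw [map_sub, h4, sub_self]
  exact res_lin j hpp hj hpk (hφ k0') hpΨ hB hrel.symm h5

/-- **Exponentials and logarithms of polynomials in several variables are algebraically independent functions.** -/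
theorem gel_indep (hU : IsPreconnected U) (hUo : IsOpen U) (hne : U.Nonempty) {κ : Type} [Fintype κ]
    (ψ : κ → MvPolynomial X ℂ) (hψ : ∀ (m : κ → ℤ) (c : ℂ), ∑ k, m k • ψ k = C c → m = 0) {n : ℕ}
    (φ : Fin n → MvPolynomial X ℂ) (hirr : ∀ k, ∃ p, Irreducible p ∧ p ∣ φ k ∧ ∀ k', k' ≠ k → ¬ p ∣ φ k')
    (l : Fin n → (X → ℂ) → ℂ) (hl : ∀ k, AnalyticOnNhd ℂ (l k) U)
    (hexp : ∀ k, ∀ x ∈ U, Complex.exp (l k x) = eval x (φ k)) :
    Pool.Agent.Q311.MV.IndepM U (Sum.elim (fun k x => Complex.exp (eval x (ψ k))) l) := by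
  classical
  have hφ : ∀ k, φ k ≠ 0 := by
    intro k h0
    obtain ⟨x, hx⟩ := hne
    have h1 := hexp k x hx
    rw [h0, map_zero] at h1
    exact Complex.exp_ne_zero _ h1
  obtain ⟨M, iF, iA, D, T, hM⟩ := exists_mer hU hUo hne
  -- derivatives of the logarithms
  have hlM : ∀ j k, aeval (xc T) (φ k) * D j (fm T l hl k) = aeval (xc T) (pderiv j (φ k)) := by
    intro j k
    have h1 : T (mkA (fun x => Complex.exp (l k x)) (exp_an (hl k))) = aeval (xc T) (φ k) := by
      rw [aeval_xc]
      congr 1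
      exact mkA_eq.2 (hexp k)
    have h2 := congrArg (D j) h1
    rw [hM.der, D_aeval hM] at h2
    rw [← h2, ← h1, fm, hM.der, ← map_mul, mkA_mul]
    congr 1
    refine mkA_eq.2 fun x hx => ?_
    rw [pd_exp j (hl k x hx)]
    ring
  have hpolyD : ∀ (p : MvPolynomial X ℂ) (j : X) (x : X → ℂ), fderiv ℂ (fun x => eval x p) x (Pi.single j 1) =
      eval x (pderiv j p) := by
    intro p j x
    induction p using MvPolynomial.induction_on with
    | C a =>
      simp
    | add p q hp hq =>
      have h1 : (fun x => eval x (p + q)) = fun x => eval x p + eval x q := funext fun x => map_add _ _ _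
      have hp' := poly_an (U := Set.univ) p x trivial
      have hq' := poly_an (U := Set.univ) q x trivial
      rw [h1, fderiv_fun_add hp'.differentiableAt hq'.differentiableAt, ContinuousLinearMap.add_apply, hp, hq,
        map_add, map_add]
    | mul_X p i hp =>
      have h1 : (fun x => eval x (p * MvPolynomial.X i)) = fun x => eval x p * x i := by
        funext x
        rw [map_mul, eval_X]
      have hp' := poly_an (U := Set.univ) p x trivial
      have hx' := an_coord (U := Set.univ) i x trivial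
      have h2 := pd_mul j hp' hx'
      unfold pd at h2
      rw [h1, h2, hp]
      have h3 := pd_coord i j x
      unfold pd at h3
      rw [h3, Derivation.leibniz, map_add, smul_eq_mul, smul_eq_mul, map_mul, map_mul, eval_X, pderiv_X]
      congr 1
      congr 1
      by_cases hij : i = j
      · subst hij
        simp
      · rw [if_neg hij, Pi.single_eq_of_ne hij, map_zero]
  have halg_poly : ∀ p : MvPolynomial X ℂ, AlgFun U (fun x => eval x p) := by
    intro p
    refine ⟨Polynomial.X - Polynomial.C p, Polynomial.X_sub_C_ne_zero p, fun x _ => ?_⟩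
    simp
  refine indep_kol hU hUo hne l hl ?_ (fun k x => eval x (ψ k)) (fun k => poly_an (ψ k)) ?_ ?_ ?_
  · intro k j
    -- the derivative of a logarithm is rational
    refine ⟨Polynomial.C (φ k) * Polynomial.X - Polynomial.C (pderiv j (φ k)), ?_, fun x hx => ?_⟩
    · intro h0
      have h1 := congrArg (fun q => Polynomial.coeff q 1) h0
      simp only [Polynomial.coeff_sub, Polynomial.coeff_C_mul, Polynomial.coeff_X_one, mul_one, Polynomial.coeff_zero,
        Polynomial.coeff_C_succ, sub_zero] at h1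
      exact hφ k h1
    · have h1 : (fun y => Complex.exp (l k y)) =ᶠ[𝓝 x] fun y => eval y (φ k) := by
        filter_upwards [hUo.mem_nhds hx] with y hy
        exact hexp k y hy
      have h2 : pd j (fun y => Complex.exp (l k y)) x = eval x (pderiv j (φ k)) := by
        rw [← hpolyD]
        unfold pd
        rw [h1.fderiv_eq]
      rw [pd_exp j (hl k x hx), hexp k x hx] at h2
      unfold pd at h2
      simp only [Polynomial.map_sub, Polynomial.map_mul, Polynomial.map_C, Polynomial.map_X, Polynomial.eval_sub,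
        Polynomial.eval_mul, Polynomial.eval_C, Polynomial.eval_X]
      rw [mul_comm, h2, sub_self]
  · intro k j
    have h1 : (fun x => fderiv ℂ (fun x => eval x (ψ k)) x (Pi.single j 1)) = fun x => eval x (pderiv j (ψ k)) := by
      funext x
      exact hpolyD (ψ k) j x
    rw [h1]
    exact halg_poly _
  · intro c hc
    have h1 : AnalyticOnNhd ℂ (fun x => ∑ k, c k * l k x) U :=
      fun x hx => Finset.analyticAt_fun_sum _ fun i _ => analyticAt_const.mul (hl i x hx)
    rw [alg_iff hM hUo hne h1] at hc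
    have h2 : ∑ i, algebraMap ℂ M (c i) * fm T l hl i = T (mkA (fun x => ∑ i, c i * l i x) h1) := by
      have h3 : mkA (fun x => ∑ i, c i * l i x) h1 = ∑ i, algebraMap ℂ (AnR U) (c i) * mkA (l i) (hl i) := by
        refine Subtype.ext (funext fun x => ?_)
        rw [AddSubmonoidClass.coe_finsetSum, Finset.sum_apply]
        rfl
      rw [h3, map_sum]
      refine Finset.sum_congr rfl fun i _ => ?_
      rw [map_mul, AlgHom.commutes]
      rfl
    rw [← h2] at hc
    exact log_zero hM hUo hne φ hφ (fm T l hl) hlM hirr c hc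
  · intro m hm
    set Q : MvPolynomial X ℂ := ∑ k, m k • ψ k with hQ
    have hQe : (fun x : X → ℂ => Complex.exp (∑ k, (m k : ℂ) * eval x (ψ k))) = fun x => Complex.exp (eval x Q) := by
      funext x
      rw [hQ, map_sum]
      congr 1
      refine Finset.sum_congr rfl fun k _ => ?_
      rw [map_zsmul, zsmul_eq_mul]
    rw [hQe] at hm
    have han : AnalyticOnNhd ℂ (fun x => Complex.exp (eval x Q)) U := exp_an (poly_an Q)
    rw [alg_iff hM hUo hne han] at hm
    obtain ⟨c, hc⟩ := exp_const hM hUo hne (y := T (mkA (fun x => Complex.exp (eval x Q)) han)) (by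
      rw [Ne, map_eq_zero_iff _ hM.inj, mkA_zero]
      intro h0
      obtain ⟨x, hx⟩ := hne
      exact Complex.exp_ne_zero _ (h0 x hx)) Q (fun j => by
        rw [hM.der, aeval_xc, ← map_mul, mkA_mul]
        congr 1
        refine mkA_eq.2 fun x hx => ?_
        rw [pd_exp j (poly_an Q x hx)]
        unfold pd
        rw [hpolyD]) hm
    exact hψ m c hc

end Pool.Agent.Q311.KO
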