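import Pool.Agent.Q311.KO.Ostm
import Pool.Agent.Q311.MV.Ind

/-!
# Iterated integrals over the rational functions
-/

set_option autoImplicit false
set_option linter.unusedSectionVars false

open Filter Topology

namespace Pool.Agent.Q311.KO

open Pool.Agent.Y890.MV

variable {X : Type} [Fintype X] [DecidableEq X] {U : Set (X → ℂ)}

/-- towers of primitives over the rational functions are regular -/
theorem tower_reg0 (hU : IsPreconnected U) (hUo : IsOpen U) (hne : U.Nonempty) {n : ℕ}
    (g : Fin n → (X → ℂ) → ℂ) (hg : ∀ i, AnalyticOnNhd ℂ (g i) U)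
    (hT : ∀ i, Prim U (fun k : {k : Fin n // k < i} => g k.1) (g i)) : RegularM U g := by
  classical
  obtain ⟨M, iF, iA, D, T, hM⟩ := exists_mer hU hUo hne
  have h1 : Closed D (IntermediateField.adjoin ℂ (Set.range (xc T))) := by
    refine closed_adjoin _ ?_
    rintro j s ⟨i, rfl⟩
    rw [xc, hM.der]
    have h1 : mkA (pd j fun x : X → ℂ => x i) (pd_an j (an_coord i)) =
        algebraMap ℂ (AnR U) (if i = j then 1 else 0) := by
      rw [mkA_const]
      exact mkA_eq.2 fun x _ => pd_coord i j x
    rw [h1, AlgHom.commutes]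
    exact IntermediateField.algebraMap_mem _ _
  obtain ⟨_, h4⟩ := tower hM.const (k0 T) (Set.range (xc T)) le_rfl h1 (fun a ha _ => ha) (fm T g hg) (by
    intro i j
    have h5 := prim_mem hM (fun k : {k : Fin n // k < i} => hg k.1) (hg i) (hT i) j
    unfold gens at h5
    have h6 : Set.range (fm T (fun k : {k : Fin n // k < i} => g k.1) fun k => hg k.1) =
        fm T g hg '' {k | k < i} := by
      ext z
      constructor
      · rintro ⟨k, rfl⟩
        exact ⟨k.1, k.2, rfl⟩
      · rintro ⟨k, hk, rfl⟩
        exact ⟨⟨k, hk⟩, rfl⟩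
    rw [h6] at h5
    exact h5)
  exact reg_of hU hUo g hg hM h4

/-- a tower of primitives in which no function is in the field generated by the previous ones consists of independent
functions -/
theorem tower_indep (hU : IsPreconnected U) (hUo : IsOpen U) (hne : U.Nonempty) {n : ℕ}
    (g : Fin n → (X → ℂ) → ℂ) (hg : ∀ i, AnalyticOnNhd ℂ (g i) U)
    (hT : ∀ i, Prim U (fun k : {k : Fin n // k < i} => g k.1) (g i))
    (hnot : ∀ i, ∀ P Q : MvPolynomial {k : Fin n // k < i} (MvPolynomial X ℂ),
      (∃ x ∈ U, evM (fun k : {k : Fin n // k < i} => g k.1) x Q ≠ 0) →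
        ¬ ∀ x ∈ U, evM (fun k : {k : Fin n // k < i} => g k.1) x Q * g i x =
          evM (fun k : {k : Fin n // k < i} => g k.1) x P) : Pool.Agent.Q311.MV.IndepM U g := by
  classical
  obtain ⟨M, iF, iA, D, T, hM⟩ := exists_mer hU hUo hne
  have h0 : Closed D (IntermediateField.adjoin ℂ (Set.range (xc T))) := by
    refine closed_adjoin _ ?_
    rintro j s ⟨i, rfl⟩
    rw [xc, hM.der]
    have h1 : mkA (pd j fun x : X → ℂ => x i) (pd_an j (an_coord i)) =
        algebraMap ℂ (AnR U) (if i = j then 1 else 0) := by
      rw [mkA_const]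
      exact mkA_eq.2 fun x _ => pd_coord i j x
    rw [h1, AlgHom.commutes]
    exact IntermediateField.algebraMap_mem _ _
  have hgens : ∀ i : Fin n, gens T (fun k : {k : Fin n // k < i} => g k.1) (fun k => hg k.1) =
      Set.range (xc T) ∪ fm T g hg '' {k | k < i} := by
    intro i
    unfold gens
    congr 1
    ext z
    constructor
    · rintro ⟨k, rfl⟩
      exact ⟨k.1, k.2, rfl⟩
    · rintro ⟨k, hk, rfl⟩
      exact ⟨⟨k, hk⟩, rfl⟩
  have hder : ∀ i j, D j (fm T g hg i) ∈ IntermediateField.adjoin ℂ (Set.range (xc T) ∪ fm T g hg '' {k | k < i}) := by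
    intro i j
    have h5 := prim_mem hM (fun k : {k : Fin n // k < i} => hg k.1) (hg i) (hT i) j
    rw [hgens] at h5
    exact h5
  have hcl : ∀ m ≤ n, Closed D (IntermediateField.adjoin ℂ (Set.range (xc T) ∪ fm T g hg '' {k | (k : ℕ) < m})) := by
    intro m
    induction m with
    | zero =>
      intro _
      have h1 : fm T g hg '' {k | (k : ℕ) < 0} = ∅ := by
        rw [Set.image_eq_empty]
        ext k
        simp
      rw [h1, Set.union_empty]
      exact h0
    | succ m ih =>
      intro hm
      have h1 := ih (by omega)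
      have h3 : Set.range (xc T) ∪ fm T g hg '' {k | (k : ℕ) < m + 1} =
          insert (fm T g hg ⟨m, by omega⟩) (Set.range (xc T) ∪ fm T g hg '' {k | (k : ℕ) < m}) := by
        ext z
        simp only [Set.mem_union, Set.mem_image, Set.mem_ofPred_eq, Set.mem_insert_iff]
        constructor
        · rintro (h | ⟨k, hk, rfl⟩)
          · exact Or.inr (Or.inl h)
          · rcases Nat.lt_succ_iff_lt_or_eq.1 hk with h | h
            · exact Or.inr (Or.inr ⟨k, h, rfl⟩)
            · left
              congr 1
              exact Fin.ext h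
        · rintro (rfl | h | ⟨k, hk, rfl⟩)
          · exact Or.inr ⟨⟨m, by omega⟩, by simp, rfl⟩
          · exact Or.inl h
          · exact Or.inr ⟨k, by omega, rfl⟩
      rw [h3]
      exact (step hM.const _ h1 _ (fun j => hder ⟨m, by omega⟩ j)).1
  have htr : ∀ i : Fin n, Transcendental (IntermediateField.adjoin ℂ (Set.range (xc T) ∪ fm T g hg '' {k | k < i}))
      (fm T g hg i) := by
    intro i h
    have h1 : fm T g hg i ∈ IntermediateField.adjoin ℂ (Set.range (xc T) ∪ fm T g hg '' {k | k < i}) :=
      mem_of_alg hM.const _ (hcl i (le_of_lt i.2)) _ (hder i) h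
    rw [← hgens] at h1
    obtain ⟨P, Q, hQ, hPQ⟩ := mem_gens _ _ h1
    rw [Ne, map_eq_zero_iff _ hM.inj, mkA_zero] at hQ
    push Not at hQ
    refine hnot i P Q hQ ?_
    rw [fm, ← map_mul] at hPQ
    have h2 := hM.inj hPQ
    rw [mkA_mul] at h2
    exact mkA_eq.1 h2
  have hon : ∀ m ≤ n, AlgebraicIndepOn (k0 T) (fm T g hg) {k | (k : ℕ) < m} := by
    intro m
    induction m with
    | zero =>
      intro _
      have h1 : {k : Fin n | (k : ℕ) < 0} = ∅ := by
        ext k
        simp
      rw [h1]
      exact algebraicIndependent_empty_type_iff.2 (algebraMap (k0 T) M).injective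
    | succ m ih =>
      intro hm
      have h1 := ih (by omega)
      have h3 : {k : Fin n | (k : ℕ) < m + 1} = insert (⟨m, by omega⟩ : Fin n) {k : Fin n | (k : ℕ) < m} := by
        ext k
        simp only [Set.mem_ofPred_eq, Set.mem_insert_iff, Fin.ext_iff]
        omega
      rw [h3]
      refine h1.insert ?_
      intro h4
      refine htr ⟨m, by omega⟩ ?_
      obtain ⟨p, hp, hpa⟩ := h4
      have hle : ∀ a ∈ Algebra.adjoin (k0 T) (fm T g hg '' {k : Fin n | (k : ℕ) < m}),
          a ∈ IntermediateField.adjoin ℂ (Set.range (xc T) ∪ fm T g hg '' {k : Fin n | k < ⟨m, by omega⟩}) := by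
        intro a ha
        induction ha using Algebra.adjoin_induction with
        | mem x hx =>
          exact IntermediateField.subset_adjoin _ _ (Or.inr hx)
        | algebraMap r =>
          exact (IntermediateField.adjoin.mono ℂ _ _ Set.subset_union_left) r.2
        | add x y _ _ hx hy => exact add_mem hx hy
        | mul x y _ _ hx hy => exact mul_mem hx hy
      let ψ : Algebra.adjoin (k0 T) (fm T g hg '' {k : Fin n | (k : ℕ) < m}) →+*
          IntermediateField.adjoin ℂ (Set.range (xc T) ∪ fm T g hg '' {k : Fin n | k < ⟨m, by omega⟩}) :=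
        (Algebra.adjoin (k0 T) (fm T g hg '' {k : Fin n | (k : ℕ) < m})).val.toRingHom.codRestrict _
          (fun a => hle a.1 a.2)
      have hψ : Function.Injective ψ := by
        intro a b hab
        have h9 : (ψ a : M) = ψ b := by rw [hab]
        exact Subtype.ext h9
      refine ⟨p.map ψ, ?_, ?_⟩
      · rw [Ne, Polynomial.map_eq_zero_iff hψ]
        exact hp
      · rw [Polynomial.aeval_def, Polynomial.eval₂_map]
        rw [Polynomial.aeval_def] at hpa
        exact hpa
  have hall : AlgebraicIndependent (k0 T) (fm T g hg) := by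
    have h1 := hon n le_rfl
    have h2 : {k : Fin n | (k : ℕ) < n} = Set.univ := by
      ext k
      simp
    rw [h2] at h1
    exact AlgebraicIndependent.comp h1 (fun i : Fin n => (⟨i, trivial⟩ : (Set.univ : Set (Fin n))))
      (fun i j h => congrArg Subtype.val h)
  intro p hp
  let ψ : MvPolynomial X ℂ →+* k0 T :=
    (MvPolynomial.aeval (xc T)).toRingHom.codRestrict (k0 T) (fun p => aeval_mem_k0 p)
  have hψinj : Function.Injective ψ := by
    rw [injective_iff_map_eq_zero]
    intro p hp
    exact aeval_xc_inj hM.inj hUo hne (congrArg Subtype.val hp)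
  have h1 : MvPolynomial.aeval (fm T g hg) (p.map ψ) = T (mkA (fun x => evM g x p) (evM_an hg p)) := by
    rw [← aeval_fm g hg, MvPolynomial.aeval_def, MvPolynomial.eval₂_map]
    rfl
  rw [mkA_zero.2 hp, map_zero] at h1
  rw [algebraicIndependent_iff] at hall
  have h2 := hall _ h1
  exact MvPolynomial.map_injective ψ hψinj (by rw [h2, map_zero])

end Pool.Agent.Q311.KO
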