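import Pool.Agent.Q311.KO.Alg

/-!
# The theorem of Kolchin and Ostrowski for several derivations: primitives and exponentials
-/

set_option autoImplicit false
set_option linter.unusedSectionVars false

namespace Pool.Agent.Q311.KO

variable {M X : Type} [Field M] [Algebra ℂ M] {D : X → Derivation ℂ M M}

/-- the derivative of a nonzero element with given logarithmic derivative -/
theorem ld_prod {κ : Type} (s : Finset κ) (d : Derivation ℂ M M) (v : κ → M) (a : κ → M)
    (hv : ∀ k, d (v k) = a k * v k) (n : κ → ℕ) :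
    d (∏ k ∈ s, v k ^ n k) = (∑ k ∈ s, (n k : M) * a k) * ∏ k ∈ s, v k ^ n k := by
  classical
  induction s using Finset.induction_on with
  | empty => simp
  | insert k s hk ih =>
    rw [Finset.prod_insert hk, Finset.sum_insert hk, Derivation.leibniz, ih, Derivation.leibniz_pow, hv,
      smul_eq_mul, smul_eq_mul, smul_eq_mul, nsmul_eq_mul]
    rcases Nat.eq_zero_or_pos (n k) with h | h
    · rw [h]
      simp
    · have h1 : v k ^ n k = v k ^ (n k - 1) * v k := by
        rw [← pow_succ, Nat.sub_add_cancel h]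
      rw [h1]
      ring

/-- **Exponentials**: elements with logarithmic derivatives in `F` are algebraically independent over `F` if no
nontrivial monomial in them is in `F` -/
theorem expo (hconst : ∀ m : M, (∀ j, D j m = 0) → ∃ c : ℂ, algebraMap ℂ M c = m) (F : IntermediateField ℂ M)
    (hF : Closed D F) {κ : Type} [Fintype κ] (v : κ → M) (hv0 : ∀ k, v k ≠ 0) (a : X → κ → M) (ha : ∀ j k, a j k ∈ F)
    (hv : ∀ j k, D j (v k) = a j k * v k) (hmult : ∀ n : κ → ℤ, ∏ k, v k ^ n k ∈ F → n = 0) :
    AlgebraicIndependent F v := by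
  classical
  rw [algebraicIndependent_iff]
  by_contra hcon
  push Not at hcon
  obtain ⟨P0, hP0, hP0'⟩ := hcon
  -- a relation with few monomials
  have hex : ∃ N, ∃ P : MvPolynomial κ F, P ≠ 0 ∧ MvPolynomial.aeval v P = 0 ∧ P.support.card = N :=
    ⟨_, P0, hP0', hP0, rfl⟩
  obtain ⟨P, hP, hPv, hPN⟩ := Nat.find_spec hex
  have hmin : ∀ Q : MvPolynomial κ F, MvPolynomial.aeval v Q = 0 → Q.support.card < P.support.card → Q = 0 := by
    intro Q hQ hlt
    by_contra hne
    rw [hPN] at hlt
    exact Nat.find_min hex hlt ⟨Q, hne, hQ, rfl⟩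
  obtain ⟨m0, hm0⟩ := MvPolynomial.ne_zero_iff.1 hP
  set c0 := P.coeff m0 with hc0
  set Q : MvPolynomial κ F := MvPolynomial.C c0⁻¹ * P with hQ
  have hQc : ∀ m, Q.coeff m = c0⁻¹ * P.coeff m := fun m => by rw [hQ, MvPolynomial.coeff_C_mul]
  have hQ1 : Q.coeff m0 = 1 := by rw [hQc, inv_mul_cancel₀ hm0]
  have hQs : Q.support = P.support := by
    ext m
    rw [MvPolynomial.mem_support_iff, MvPolynomial.mem_support_iff, hQc]
    simp [hm0]
  have hQv : MvPolynomial.aeval v Q = 0 := by rw [hQ, map_mul, hPv, mul_zero]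
  have hmono : ∀ m : κ →₀ ℕ, MvPolynomial.aeval v (MvPolynomial.monomial m (1 : F)) = ∏ k, v k ^ m k := by
    intro m
    rw [MvPolynomial.aeval_monomial, map_one, one_mul, Finsupp.prod_fintype _ _ (fun i => pow_zero _)]
  have hprod0 : ∀ m : κ →₀ ℕ, ∏ k, v k ^ m k ≠ 0 := fun m => Finset.prod_ne_zero_iff.2 fun k _ => pow_ne_zero _ (hv0 k)
  let w : X → (κ →₀ ℕ) → F := fun j m => ∑ k, (m k : F) * ⟨a j k, ha j k⟩
  have hw : ∀ j m, ((w j m : F) : M) = ∑ k, (m k : M) * a j k := by
    intro j m
    simp only [w]
    rw [AddSubmonoidClass.coe_finsetSum]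
    refine Finset.sum_congr rfl fun k _ => ?_
    change ((m k : F) : M) * a j k = _
    congr 1
  have hD : ∀ j (m : κ →₀ ℕ), D j (∏ k, v k ^ m k) = ((w j m : F) : M) * ∏ k, v k ^ m k := by
    intro j m
    rw [hw]
    exact ld_prod Finset.univ (D j) v (a j) (hv j) m
  have hsum : ∀ R : MvPolynomial κ F, MvPolynomial.aeval v R = ∑ m ∈ R.support, ((R.coeff m : F) : M) * ∏ k, v k ^ m k := by
    intro R
    conv_lhs => rw [R.as_sum]
    rw [map_sum]
    refine Finset.sum_congr rfl fun m _ => ?_
    rw [MvPolynomial.aeval_monomial, Finsupp.prod_fintype _ _ (fun i => pow_zero _)]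
    rfl
  -- the other coefficients
  have hkey : ∀ j (m : κ →₀ ℕ), ((D j ((Q.coeff m : F) : M)) + ((Q.coeff m : F) : M) * ((w j m : F) - (w j m0 : F))) = 0 := by
    intro j m
    set R : MvPolynomial κ F := ∑ m ∈ Q.support, MvPolynomial.monomial m
      (resD F hF j (Q.coeff m) + Q.coeff m * (w j m - w j m0)) with hR
    have hRc : ∀ m, R.coeff m = resD F hF j (Q.coeff m) + Q.coeff m * (w j m - w j m0) := by
      intro m
      rw [hR, MvPolynomial.coeff_sum]
      simp only [MvPolynomial.coeff_monomial]
      rw [Finset.sum_ite_eq']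
      split_ifs with h
      · rfl
      · rw [MvPolynomial.notMem_support_iff.1 h, map_zero, zero_mul, add_zero]
    have hRv : MvPolynomial.aeval v R = 0 := by
      have h1 : MvPolynomial.aeval v R = D j (MvPolynomial.aeval v Q) - ((w j m0 : F) : M) * MvPolynomial.aeval v Q := by
        rw [hR, map_sum, hsum Q, map_sum, Finset.mul_sum, ← Finset.sum_sub_distrib]
        refine Finset.sum_congr rfl fun m _ => ?_
        rw [MvPolynomial.aeval_monomial, Finsupp.prod_fintype _ _ (fun i => pow_zero _), Derivation.leibniz, hD,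
          smul_eq_mul, smul_eq_mul]
        have h2 : algebraMap F M (resD F hF j (Q.coeff m) + Q.coeff m * (w j m - w j m0)) =
            D j ((Q.coeff m : F) : M) + ((Q.coeff m : F) : M) * ((w j m : F) - (w j m0 : F)) := rfl
        rw [h2]
        ring
      rw [h1, hQv, map_zero, mul_zero, sub_zero]
    have hRs : R.support ⊆ P.support.erase m0 := by
      intro m hm
      rw [MvPolynomial.mem_support_iff, hRc] at hm
      rw [Finset.mem_erase, ← hQs, MvPolynomial.mem_support_iff]
      refine ⟨?_, ?_⟩
      · rintro rfl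
        apply hm
        rw [hQ1, sub_self, mul_zero, add_zero]
        exact (resD F hF j).map_one_eq_zero
      · intro h
        apply hm
        rw [h, map_zero, zero_mul, add_zero]
    have hR0 : R = 0 := by
      refine hmin R hRv ((Finset.card_le_card hRs).trans_lt ?_)
      exact Finset.card_erase_lt_of_mem (MvPolynomial.mem_support_iff.2 hm0)
    have h3 := hRc m
    rw [hR0, MvPolynomial.coeff_zero] at h3
    have h4 := congrArg (fun z : F => (z : M)) h3
    exact h4.symm
  have honly : ∀ m, Q.coeff m ≠ 0 → m = m0 := by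
    intro m hm
    have hm' : ((Q.coeff m : F) : M) ≠ 0 := by
      rw [Ne, ZeroMemClass.coe_eq_zero]
      exact hm
    have h1 : ∀ j, D j (((Q.coeff m : F) : M) * (∏ k, v k ^ m k) / ∏ k, v k ^ m0 k) = 0 := by
      intro j
      rw [Derivation.leibniz_div, Derivation.leibniz, hD, hD]
      simp only [smul_eq_mul]
      have h2 := hkey j m
      have h3 : D j ((Q.coeff m : F) : M) = -(((Q.coeff m : F) : M) * ((w j m : F) - (w j m0 : F))) :=
        eq_neg_of_add_eq_zero_left h2
      rw [h3]
      ring
    obtain ⟨c, hc⟩ := hconst _ h1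
    have h2 : ∏ k, v k ^ ((m0 k : ℤ) - (m k : ℤ)) ∈ F := by
      have h3 : ∏ k, v k ^ ((m0 k : ℤ) - (m k : ℤ)) = (∏ k, v k ^ m0 k) / ∏ k, v k ^ m k := by
        rw [← Finset.prod_div_distrib]
        refine Finset.prod_congr rfl fun k _ => ?_
        rw [zpow_sub₀ (hv0 k), zpow_natCast, zpow_natCast]
      have hc' : algebraMap ℂ M c ≠ 0 := by
        rw [hc]
        exact div_ne_zero (mul_ne_zero hm' (hprod0 m)) (hprod0 m0)
      have h4 : (∏ k, v k ^ m0 k) / ∏ k, v k ^ m k = ((Q.coeff m : F) : M) / algebraMap ℂ M c := by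
        rw [hc]
        have := hprod0 m
        have := hprod0 m0
        field_simp
      rw [h3, h4]
      exact div_mem (Q.coeff m).2 (F.algebraMap_mem c)
    have h5 := hmult _ h2
    ext k
    have h6 := congrFun h5 k
    simp only [Pi.zero_apply] at h6
    omega
  have hQm : Q = MvPolynomial.monomial m0 1 := by
    refine MvPolynomial.ext _ _ fun m => ?_
    rw [MvPolynomial.coeff_monomial]
    split_ifs with h
    · rw [← h, hQ1]
    · by_contra hne
      exact h (honly m hne).symm
  rw [hQm, hmono] at hQv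
  exact hprod0 m0 hQv

/-- the derivative of `p(t)`, `t` a primitive with derivatives `w` -/
noncomputable def dp (L : IntermediateField ℂ M) (hL : Closed D L) (w : X → L) (j : X) (p : Polynomial L) :
    Polynomial L :=
  (∑ i ∈ p.support, Polynomial.monomial i (resD L hL j (p.coeff i))) + Polynomial.C (w j) * Polynomial.derivative p

theorem dp_coeff (L : IntermediateField ℂ M) (hL : Closed D L) (w : X → L) (j : X) (p : Polynomial L) (n : ℕ) :
    (dp L hL w j p).coeff n = resD L hL j (p.coeff n) + w j * (p.coeff (n + 1) * ((n : L) + 1)) := by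
  unfold dp
  rw [Polynomial.coeff_add, Polynomial.finsetSum_coeff, Polynomial.coeff_C_mul, Polynomial.coeff_derivative]
  congr 1
  simp only [Polynomial.coeff_monomial]
  rw [Finset.sum_ite_eq']
  split_ifs with h
  · rfl
  · rw [Polynomial.notMem_support_iff.1 h, map_zero]

theorem dp_eval (L : IntermediateField ℂ M) (hL : Closed D L) (w : X → L) {t : M} (hw : ∀ j, D j t = w j) (j : X)
    (p : Polynomial L) : Polynomial.aeval t (dp L hL w j p) = D j (Polynomial.aeval t p) := by
  induction p using Polynomial.induction_on' with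
  | add p q hp hq =>
    have h1 : dp L hL w j (p + q) = dp L hL w j p + dp L hL w j q := by
      refine Polynomial.ext fun n => ?_
      rw [Polynomial.coeff_add, dp_coeff, dp_coeff, dp_coeff, Polynomial.coeff_add, Polynomial.coeff_add, map_add]
      ring
    rw [h1, map_add, hp, hq, map_add, map_add]
  | monomial n a =>
    have h1 : dp L hL w j (Polynomial.monomial n a) = Polynomial.monomial n (resD L hL j a) +
        Polynomial.C (w j) * Polynomial.derivative (Polynomial.monomial n a) := by
      refine Polynomial.ext fun i => ?_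
      rw [dp_coeff, Polynomial.coeff_add, Polynomial.coeff_C_mul, Polynomial.coeff_derivative,
        Polynomial.coeff_monomial, Polynomial.coeff_monomial]
      congr 1
      rw [Polynomial.coeff_monomial]
      split_ifs with h
      · rfl
      · rw [map_zero]
    rw [h1, map_add, map_mul, Polynomial.aeval_C, Polynomial.derivative_monomial, Polynomial.aeval_monomial,
      Polynomial.aeval_monomial, Polynomial.aeval_monomial, Derivation.leibniz, Derivation.leibniz_pow, hw]
    simp only [smul_eq_mul, nsmul_eq_mul, map_mul, map_natCast]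
    have h2 : algebraMap L M (resD L hL j a) = D j (algebraMap L M a) := rfl
    have h3 : algebraMap L M (w j) = (w j : M) := rfl
    rw [h2, h3]
    ring

/-- an element of `L(t)`, `t` a transcendental primitive over `L`, with logarithmic derivative in `L`, is in `L` -/
theorem exp_mem (hconst : ∀ m : M, (∀ j, D j m = 0) → ∃ c : ℂ, algebraMap ℂ M c = m) (L : IntermediateField ℂ M)
    (hL : Closed D L) {t : M} (ht : Transcendental L t) (w : X → L) (hw : ∀ j, D j t = w j) {y : M}
    (hy : y ∈ IntermediateField.adjoin L {t}) (hy0 : y ≠ 0) (b : X → L) (hb : ∀ j, D j y = b j * y) : y ∈ L := by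
  classical
  have hdpc : ∀ j p n, (dp L hL w j p).coeff n = resD L hL j (p.coeff n) + w j * (p.coeff (n + 1) * ((n : L) + 1)) :=
    fun j p n => dp_coeff L hL w j p n
  have hdpe : ∀ j p, Polynomial.aeval t (dp L hL w j p) = D j (Polynomial.aeval t p) := fun j p => dp_eval L hL w hw j p
  have htr : ∀ p : Polynomial L, Polynomial.aeval t p = 0 → p = 0 := fun p hp => by
    by_contra hne
    exact ht ⟨p, hne, hp⟩
  -- a denominator of least degree
  obtain ⟨r, s, hrs⟩ := (IntermediateField.mem_adjoin_simple_iff L y).1 hy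
  have hs0 : Polynomial.aeval t s ≠ 0 := by
    intro h
    rw [h, div_zero] at hrs
    exact hy0 hrs
  have hex : ∃ N, ∃ Q P : Polynomial L, Q ≠ 0 ∧ Polynomial.aeval t Q * y = Polynomial.aeval t P ∧ Q.natDegree = N := by
    refine ⟨_, s, r, ?_, ?_, rfl⟩
    · rintro rfl
      exact hs0 (map_zero _)
    · rw [hrs, mul_div_cancel₀ _ hs0]
  obtain ⟨Q0, P0, hQ0, hQP0, hN⟩ := Nat.find_spec hex
  have hmin : ∀ Q P : Polynomial L, Polynomial.aeval t Q * y = Polynomial.aeval t P → Q.natDegree < Q0.natDegree →
      Q = 0 := by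
    intro Q P h hlt
    by_contra hne
    rw [hN] at hlt
    exact Nat.find_min hex hlt ⟨Q, P, hne, h, rfl⟩
  have hl : Q0.leadingCoeff ≠ 0 := Polynomial.leadingCoeff_ne_zero.2 hQ0
  set Q : Polynomial L := Polynomial.C Q0.leadingCoeff⁻¹ * Q0 with hQd
  set P : Polynomial L := Polynomial.C Q0.leadingCoeff⁻¹ * P0 with hPd
  have hQP : Polynomial.aeval t Q * y = Polynomial.aeval t P := by
    rw [hQd, hPd, map_mul, map_mul, mul_assoc, hQP0]
  have hQdeg : Q.natDegree = Q0.natDegree := by
    rw [hQd, Polynomial.natDegree_C_mul (inv_ne_zero hl)]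
  have hQm : Q.coeff Q0.natDegree = 1 := by
    rw [hQd, Polynomial.coeff_C_mul]
    exact inv_mul_cancel₀ hl
  have hQc : ∀ j, dp L hL w j Q = 0 := by
    intro j
    by_cases hd : Q0.natDegree = 0
    · -- constant
      refine Polynomial.ext fun n => ?_
      rw [hdpc]
      have h1 : Q.coeff (n + 1) = 0 := Polynomial.coeff_eq_zero_of_natDegree_lt (by omega)
      rw [h1, zero_mul, mul_zero, add_zero]
      rcases Nat.eq_zero_or_pos n with hn | hn
      · rw [hn, ← hd, hQm]
        rw [(resD L hL j).map_one_eq_zero]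
        rfl
      · have h2 : Q.coeff n = 0 := Polynomial.coeff_eq_zero_of_natDegree_lt (by omega)
        rw [h2, map_zero]
        rfl
    refine hmin (dp L hL w j Q) (dp L hL w j P - Polynomial.C (b j) * P) ?_ ?_
    · rw [map_sub, map_mul, Polynomial.aeval_C, hdpe, hdpe, ← hQP, Derivation.leibniz, hb, smul_eq_mul, smul_eq_mul]
      have h3 : algebraMap L M (b j) = (b j : M) := rfl
      rw [h3]
      ring
    · have h1 : (dp L hL w j Q).natDegree ≤ Q0.natDegree - 1 := by
        rw [Polynomial.natDegree_le_iff_coeff_eq_zero]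
        intro n hn
        rw [hdpc]
        have h1 : Q.coeff (n + 1) = 0 := Polynomial.coeff_eq_zero_of_natDegree_lt (by omega)
        rw [h1, zero_mul, mul_zero, add_zero]
        rcases Nat.lt_or_ge Q0.natDegree n with hn' | hn'
        · have h2 : Q.coeff n = 0 := Polynomial.coeff_eq_zero_of_natDegree_lt (by omega)
          rw [h2, map_zero]
        · have h2 : n = Q0.natDegree := by omega
          rw [h2, hQm]
          exact (resD L hL j).map_one_eq_zero
      omega
  -- the denominator is constant
  obtain ⟨c, hc⟩ := hconst (Polynomial.aeval t Q) (fun j => by rw [← hdpe, hQc, map_zero])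
  have hQne : Polynomial.aeval t Q ≠ 0 := by
    intro h
    have h1 := htr Q h
    rw [h1, Polynomial.coeff_zero] at hQm
    exact zero_ne_one hQm
  have hyP : y = Polynomial.aeval t (Polynomial.C (algebraMap ℂ L c)⁻¹ * P) := by
    rw [map_mul, Polynomial.aeval_C, ← hQP, map_inv₀, ← IsScalarTower.algebraMap_apply, hc, ← mul_assoc,
      inv_mul_cancel₀ hQne, one_mul]
  set P1 : Polynomial L := Polynomial.C (algebraMap ℂ L c)⁻¹ * P with hP1
  have hP1ne : P1 ≠ 0 := by
    intro h
    rw [h, map_zero] at hyP
    exact hy0 hyP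
  have hdP : ∀ j, dp L hL w j P1 = Polynomial.C (b j) * P1 := by
    intro j
    rw [← sub_eq_zero]
    refine htr _ ?_
    have h4 : Polynomial.aeval t (Polynomial.C (b j) * P1) = b j * Polynomial.aeval t P1 := by
      rw [map_mul, Polynomial.aeval_C]
      rfl
    rw [map_sub, hdpe, h4, ← hyP, hb, sub_self]
  have hlc : P1.leadingCoeff ≠ 0 := Polynomial.leadingCoeff_ne_zero.2 hP1ne
  have hlcM : ((P1.leadingCoeff : L) : M) ≠ 0 := by
    rw [Ne, ZeroMemClass.coe_eq_zero]
    exact hlc
  have hlead : ∀ j, D j ((P1.leadingCoeff : L) : M) = b j * ((P1.leadingCoeff : L) : M) := by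
    intro j
    have h1 := congrArg (fun p : Polynomial L => p.coeff P1.natDegree) (hdP j)
    simp only [hdpc, Polynomial.coeff_C_mul] at h1
    have h2 : P1.coeff (P1.natDegree + 1) = 0 := Polynomial.coeff_eq_zero_of_natDegree_lt (by omega)
    rw [h2, zero_mul, mul_zero, add_zero] at h1
    exact congrArg (fun z : L => (z : M)) h1
  obtain ⟨c', hc'⟩ := hconst (y / ((P1.leadingCoeff : L) : M)) (fun j => by
    rw [Derivation.leibniz_div, hb, hlead]
    simp only [smul_eq_mul]
    ring)
  have h2 : y = algebraMap ℂ M c' * ((P1.leadingCoeff : L) : M) := by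
    rw [hc', div_mul_cancel₀ _ hlcM]
  rw [h2]
  exact mul_mem (L.algebraMap_mem c') P1.leadingCoeff.2

/-- towers of primitives: no new exponentials -/
theorem tower_exp (hconst : ∀ m : M, (∀ j, D j m = 0) → ∃ c : ℂ, algebraMap ℂ M c = m)
    (S : Set M) (hS : Closed D (IntermediateField.adjoin ℂ S)) {n : ℕ} (u : Fin n → M)
    (hu : ∀ i j, D j (u i) ∈ IntermediateField.adjoin ℂ S) :
    Closed D (IntermediateField.adjoin ℂ (S ∪ Set.range u)) ∧
    ∀ y ∈ IntermediateField.adjoin ℂ (S ∪ Set.range u), y ≠ 0 →
      (∀ j, ∃ b ∈ IntermediateField.adjoin ℂ S, D j y = b * y) → y ∈ IntermediateField.adjoin ℂ S := by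
  classical
  set K := IntermediateField.adjoin ℂ S with hK
  have key : ∀ m ≤ n, Closed D (IntermediateField.adjoin ℂ (S ∪ u '' {k | (k : ℕ) < m})) ∧
      ∀ y ∈ IntermediateField.adjoin ℂ (S ∪ u '' {k | (k : ℕ) < m}), y ≠ 0 →
        (∀ j, ∃ b ∈ K, D j y = b * y) → y ∈ K := by
    intro m
    induction m with
    | zero =>
      intro _
      have h1 : u '' {k | (k : ℕ) < 0} = ∅ := by
        rw [Set.image_eq_empty]
        ext k
        simp
      rw [h1, Set.union_empty]
      exact ⟨hS, fun y hy _ _ => hy⟩
    | succ m ih =>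
      intro hm
      obtain ⟨h1, h2⟩ := ih (by omega)
      set S' := S ∪ u '' {k | (k : ℕ) < m} with hS'
      have hKL : K ≤ IntermediateField.adjoin ℂ S' := IntermediateField.adjoin.mono _ _ _ Set.subset_union_left
      have h3 : S ∪ u '' {k | (k : ℕ) < m + 1} = insert (u ⟨m, by omega⟩) S' := by
        ext z
        simp only [hS', Set.mem_union, Set.mem_image, Set.mem_ofPred_eq, Set.mem_insert_iff]
        constructor
        · rintro (h | ⟨k, hk, rfl⟩)
          · exact Or.inr (Or.inl h)
          · rcases Nat.lt_succ_iff_lt_or_eq.1 hk with h | h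
            · exact Or.inr (Or.inr ⟨k, h, rfl⟩)
            · left
              congr 1
              exact Fin.ext h
        · rintro (rfl | h | ⟨k, hk, rfl⟩)
          · exact Or.inr ⟨⟨m, by omega⟩, by simp, rfl⟩
          · exact Or.inl h
          · exact Or.inr ⟨k, by omega, rfl⟩
      have hut : ∀ j, D j (u ⟨m, by omega⟩) ∈ IntermediateField.adjoin ℂ S' := fun j => hKL (hu _ j)
      obtain ⟨h4, _⟩ := step hconst S' h1 (u ⟨m, by omega⟩) hut
      rw [h3]
      refine ⟨h4, fun y hy hy0 hb => ?_⟩
      refine h2 y ?_ hy0 hb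
      by_cases hmem : u ⟨m, by omega⟩ ∈ IntermediateField.adjoin ℂ S'
      · have h5 : IntermediateField.adjoin ℂ (insert (u ⟨m, by omega⟩) S') ≤ IntermediateField.adjoin ℂ S' := by
          rw [IntermediateField.adjoin_le_iff]
          intro s hs
          rcases Set.mem_insert_iff.1 hs with rfl | hs
          · exact hmem
          · exact IntermediateField.subset_adjoin ℂ S' hs
        exact h5 hy
      · have hyt : Transcendental (IntermediateField.adjoin ℂ S') (u ⟨m, by omega⟩) :=
          fun h => hmem (mem_of_alg hconst _ h1 _ hut h)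
        have h5 : y ∈ IntermediateField.adjoin (IntermediateField.adjoin ℂ S') {u ⟨m, by omega⟩} := by
          have h6 : IntermediateField.adjoin ℂ (insert (u ⟨m, by omega⟩) S') ≤
              (IntermediateField.adjoin (IntermediateField.adjoin ℂ S') {u ⟨m, by omega⟩}).restrictScalars ℂ := by
            rw [IntermediateField.adjoin_le_iff]
            intro s hs
            rw [SetLike.mem_coe, IntermediateField.mem_restrictScalars]
            rcases Set.mem_insert_iff.1 hs with rfl | hs
            · exact IntermediateField.mem_adjoin_simple_self _ _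
            · exact (IntermediateField.adjoin (IntermediateField.adjoin ℂ S') {u ⟨m, by omega⟩}).algebraMap_mem
                ⟨s, IntermediateField.subset_adjoin ℂ S' hs⟩
          exact h6 hy
        choose b hbK hbe using hb
        exact exp_mem hconst _ h1 hyt (fun j => ⟨_, hut j⟩) (fun j => rfl) h5 hy0 (fun j => ⟨b j, hKL (hbK j)⟩) hbe
  obtain ⟨h1, h2⟩ := key n le_rfl
  have h3 : u '' {k : Fin n | (k : ℕ) < n} = Set.range u := by
    rw [← Set.image_univ]
    congr 1
    ext k
    simp
  rw [h3] at h1 h2
  exact ⟨h1, h2⟩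

/-- **The theorem of Kolchin and Ostrowski**, for several derivations -/
theorem kol (hconst : ∀ m : M, (∀ j, D j m = 0) → ∃ c : ℂ, algebraMap ℂ M c = m)
    (S : Set M) (hS : Closed D (IntermediateField.adjoin ℂ S)) {n : ℕ} (u : Fin n → M)
    (hu : ∀ i j, D j (u i) ∈ IntermediateField.adjoin ℂ S)
    (hlin : ∀ c : Fin n → ℂ, ∑ i, algebraMap ℂ M (c i) * u i ∈ IntermediateField.adjoin ℂ S → c = 0)
    {κ : Type} [Fintype κ] (v : κ → M) (hv0 : ∀ k, v k ≠ 0)
    (hv : ∀ j k, ∃ a ∈ IntermediateField.adjoin ℂ S, D j (v k) = a * v k)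
    (hmult : ∀ n : κ → ℤ, ∏ k, v k ^ n k ∈ IntermediateField.adjoin ℂ S → n = 0) :
    AlgebraicIndependent (IntermediateField.adjoin ℂ S) (Sum.elim v u) := by
  classical
  set K := IntermediateField.adjoin ℂ S with hK
  obtain ⟨h1, h2⟩ := tower_exp hconst S hS u hu
  set L := IntermediateField.adjoin ℂ (S ∪ Set.range u) with hL
  have hKL : K ≤ L := IntermediateField.adjoin.mono _ _ _ Set.subset_union_left
  have hui : AlgebraicIndependent K u := ost_in hconst K hS u (fun j i => hu i j) hlin
  choose a haK hav using hv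
  have hvi : AlgebraicIndependent L v := by
    refine expo hconst L h1 v hv0 a (fun j k => hKL (haK j k)) hav fun m hm => ?_
    refine hmult m (h2 _ hm ?_ fun j => ?_)
    · exact Finset.prod_ne_zero_iff.2 fun k _ => zpow_ne_zero _ (hv0 k)
    · -- the logarithmic derivative of a monomial
      have h3 : ∀ s : Finset κ, ∃ b ∈ K, D j (∏ k ∈ s, v k ^ m k) = b * ∏ k ∈ s, v k ^ m k := by
        intro s
        induction s using Finset.induction_on with
        | empty => exact ⟨0, zero_mem _, by simp⟩
        | insert k s hk ih =>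
          obtain ⟨b, hb, hbe⟩ := ih
          refine ⟨(m k : M) * a j k + b, add_mem (mul_mem ?_ (haK j k)) hb, ?_⟩
          · have h4 : ((m k : ℤ) : M) = ((m k : ℤ) : K) := by
              exact (SubringClass.coe_intCast K (m k)).symm
            rw [h4]
            exact Subtype.property _
          · rw [Finset.prod_insert hk, Derivation.leibniz, hbe, Derivation.leibniz_zpow, hav, smul_eq_mul,
              smul_eq_mul, smul_eq_mul, zsmul_eq_mul]
            have h5 : v k ^ m k = v k ^ (m k - 1) * v k := by
              rw [← zpow_add_one₀ (hv0 k), sub_add_cancel]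
            rw [h5]
            ring
      exact h3 Finset.univ
  let _ : Algebra K L := (IntermediateField.inclusion hKL).toRingHom.toAlgebra
  have htow : IsScalarTower K L M := IsScalarTower.of_algebraMap_eq fun x => rfl
  refine hui.sumElim_of_tower (S := L) ?_ hvi
  rintro _ ⟨i, rfl⟩
  exact ⟨⟨u i, IntermediateField.subset_adjoin _ _ (Or.inr ⟨i, rfl⟩)⟩, rfl⟩

end Pool.Agent.Q311.KO
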