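import Pool.Agent.Q311.KO.AlgF

/-!
# Logarithms and exponentials of polynomials in several variables
-/

set_option autoImplicit false
set_option linter.unusedSectionVars false

open Filter Topology MvPolynomial

namespace Pool.Agent.Q311.KO

open Pool.Agent.Y890.MV

section poly

variable {X : Type}

theorem degreeOf_pderiv_lt (j : X) (p : MvPolynomial X ℂ) (h : pderiv j p ≠ 0) :
    (pderiv j p).degreeOf j < p.degreeOf j := by
  classical
  have h1 : ∀ m ∈ (pderiv j p).support, m j + 1 ≤ p.degreeOf j := by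
    intro m hm
    rw [mem_support_iff, coeff_pderiv] at hm
    have h2 : coeff (m + Finsupp.single j 1) p ≠ 0 := left_ne_zero_of_mul hm
    have h3 := monomial_le_degreeOf j (mem_support_iff.2 h2)
    simpa using h3
  obtain ⟨m, hm⟩ := MvPolynomial.support_nonempty.2 h
  have h2 : 0 < p.degreeOf j := by
    have := h1 m hm
    omega
  rw [degreeOf_lt_iff h2]
  intro m hm
  have := h1 m hm
  omega

theorem exists_pderiv_ne {p : MvPolynomial X ℂ} (hp : ∀ c : ℂ, p ≠ C c) : ∃ j, pderiv j p ≠ 0 := by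
  classical
  by_contra hcon
  push Not at hcon
  apply hp (coeff 0 p)
  ext m
  rw [coeff_C]
  split_ifs with h
  · rw [h]
  · obtain ⟨j, hj⟩ : ∃ j, m j ≠ 0 := by
      by_contra h1
      push Not at h1
      exact h (Finsupp.ext fun j => (h1 j).symm)
    have h2 := congrArg (coeff (m - Finsupp.single j 1)) (hcon j)
    rw [coeff_pderiv, coeff_zero] at h2
    have h3 : m - Finsupp.single j 1 + Finsupp.single j 1 = m := by
      apply tsub_add_cancel_of_le
      rw [Finsupp.single_le_iff]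
      exact Nat.one_le_iff_ne_zero.2 hj
    rw [h3] at h2
    rcases mul_eq_zero.1 h2 with h4 | h4
    · exact h4
    · exact absurd h4 (Nat.cast_add_one_ne_zero _)

theorem not_dvd_pderiv (j : X) {p : MvPolynomial X ℂ} (h : pderiv j p ≠ 0) : ¬ p ∣ pderiv j p := by
  rintro ⟨q, hq⟩
  have hp : p ≠ 0 := by
    rintro rfl
    exact h (map_zero _)
  have hq0 : q ≠ 0 := by
    rintro rfl
    rw [mul_zero] at hq
    exact h hq
  have h1 := degreeOf_pderiv_lt j p h
  rw [hq, degreeOf_mul_eq hp hq0] at h1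
  omega

/-- `p * ∂ (p ^ m * ψ) = p ^ m * (m * ∂ p * ψ + p * ∂ ψ)` -/
theorem p_mul_pderiv (j : X) (p ψ : MvPolynomial X ℂ) (m : ℕ) :
    p * pderiv j (p ^ m * ψ) = p ^ m * ((m : MvPolynomial X ℂ) * pderiv j p * ψ + p * pderiv j ψ) := by
  rw [Derivation.leibniz, Derivation.leibniz_pow, smul_eq_mul, smul_eq_mul, smul_eq_mul, nsmul_eq_mul]
  rcases Nat.eq_zero_or_pos m with h | h
  · rw [h]
    simp
  · have h1 : p ^ m = p ^ (m - 1) * p := by
      rw [← pow_succ, Nat.sub_add_cancel h]
    rw [h1]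
    ring

/-- the residue of a linear combination of logarithmic derivatives which is exact vanishes -/
theorem res_lin (j : X) {p φ Ψ S A B : MvPolynomial X ℂ} {c : ℂ} (hp : Prime p) (hpd : pderiv j p ≠ 0)
    (hpφ : p ∣ φ) (hφ : φ ≠ 0) (hpΨ : ¬ p ∣ Ψ) (hB : B ≠ 0) (hAB : IsRelPrime A B)
    (h : B ^ 2 * (C c * pderiv j φ * Ψ + φ * S) = φ * Ψ * (B * pderiv j A - A * pderiv j B)) : c = 0 := by
  classical
  obtain ⟨ψ, hψ, hψp⟩ := (FiniteMultiplicity.of_prime_left hp hφ).exists_eq_pow_mul_and_not_dvd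
  obtain ⟨B', hB', hBp⟩ := (FiniteMultiplicity.of_prime_left hp hB).exists_eq_pow_mul_and_not_dvd
  set m := multiplicity p φ with hm
  set b := multiplicity p B with hb
  have hm0 : m ≠ 0 := by
    intro h0
    rw [h0, pow_zero, one_mul] at hψ
    exact hψp (hψ ▸ hpφ)
  have hp0 : p ≠ 0 := hp.ne_zero
  have h1 := p_mul_pderiv j p ψ m
  have h2 := p_mul_pderiv j p B' b
  rw [← hψ] at h1
  rw [← hB'] at h2
  have hpdp := not_dvd_pderiv j hpd
  by_contra hc
  have hCc : ∀ z : ℂ, z ≠ 0 → ¬ p ∣ C z := by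
    intro z hz hdvd
    have hu : IsUnit (C z : MvPolynomial X ℂ) := (isUnit_iff_ne_zero.2 hz).map C
    exact hp.not_isUnit (isUnit_of_dvd_unit hdvd hu)
  have hcast : ∀ k : ℕ, k ≠ 0 → ¬ p ∣ (k : MvPolynomial X ℂ) := by
    intro k hk hdvd
    have h3 : (k : MvPolynomial X ℂ) = C (k : ℂ) := by rw [map_natCast]
    rw [h3] at hdvd
    exact hCc _ (Nat.cast_ne_zero.2 hk) hdvd
  rcases Nat.eq_zero_or_pos b with hb0 | hb0
  · -- no pole
    have hBp' : ¬ p ∣ B := by
      rw [hb0, pow_zero, one_mul] at hB'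
      rw [hB']
      exact hBp
    have h3 : p ^ m * (B ^ 2 * (C c * ((m : MvPolynomial X ℂ) * pderiv j p * ψ + p * pderiv j ψ) * Ψ + p * ψ * S)) =
        p ^ m * (p * (ψ * Ψ * (B * pderiv j A - A * pderiv j B))) := by
      have h4 : p * (B ^ 2 * (C c * pderiv j φ * Ψ + φ * S)) = p * (φ * Ψ * (B * pderiv j A - A * pderiv j B)) := by
        rw [h]
      calc p ^ m * (B ^ 2 * (C c * ((m : MvPolynomial X ℂ) * pderiv j p * ψ + p * pderiv j ψ) * Ψ + p * ψ * S))
          = B ^ 2 * (C c * (p ^ m * ((m : MvPolynomial X ℂ) * pderiv j p * ψ + p * pderiv j ψ)) * Ψ +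
              p * (p ^ m * ψ) * S) := by ring
        _ = B ^ 2 * (C c * (p * pderiv j φ) * Ψ + p * φ * S) := by
          rw [← h1, ← hψ]
        _ = p * (B ^ 2 * (C c * pderiv j φ * Ψ + φ * S)) := by ring
        _ = p * (φ * Ψ * (B * pderiv j A - A * pderiv j B)) := h4
        _ = p ^ m * (p * (ψ * Ψ * (B * pderiv j A - A * pderiv j B))) := by
          nth_rw 1 [hψ]
          ring
    have h4 := mul_left_cancel₀ (pow_ne_zero m hp0) h3
    have h5 : p ∣ B ^ 2 * (C c * ((m : MvPolynomial X ℂ) * pderiv j p * ψ) * Ψ) := by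
      have h6 : B ^ 2 * (C c * ((m : MvPolynomial X ℂ) * pderiv j p * ψ) * Ψ) =
          p * (ψ * Ψ * (B * pderiv j A - A * pderiv j B) - B ^ 2 * (C c * pderiv j ψ * Ψ + ψ * S)) := by
        linear_combination h4
      rw [h6]
      exact dvd_mul_right _ _
    rcases hp.dvd_or_dvd h5 with h6 | h6
    · exact hBp' (hp.dvd_of_dvd_pow h6)
    rcases hp.dvd_or_dvd h6 with h7 | h7
    · rcases hp.dvd_or_dvd h7 with h8 | h8
      · exact hCc c hc h8
      · rcases hp.dvd_or_dvd h8 with h9 | h9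
        · rcases hp.dvd_or_dvd h9 with h10 | h10
          · exact hcast m hm0 h10
          · exact hpdp h10
        · exact hψp h9
    · exact hpΨ h7
  · -- a pole
    have hpA : ¬ p ∣ A := by
      intro hdvd
      have h3 : p ∣ B := by
        rw [hB']
        exact (dvd_pow_self p (by omega)).mul_right _
      exact hp.not_isUnit (hAB hdvd h3)
    have h3 : p ^ (m + b) * (p ^ b * (B' ^ 2 * (C c * ((m : MvPolynomial X ℂ) * pderiv j p * ψ + p * pderiv j ψ) * Ψ +
        p * ψ * S))) =
        p ^ (m + b) * (ψ * Ψ * (p * B' * pderiv j A - A * ((b : MvPolynomial X ℂ) * pderiv j p * B' + p * pderiv j B'))) := by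
      have h4 : p * (B ^ 2 * (C c * pderiv j φ * Ψ + φ * S)) = p * (φ * Ψ * (B * pderiv j A - A * pderiv j B)) := by
        rw [h]
      calc p ^ (m + b) * (p ^ b * (B' ^ 2 * (C c * ((m : MvPolynomial X ℂ) * pderiv j p * ψ + p * pderiv j ψ) * Ψ +
            p * ψ * S)))
          = (p ^ b * B') ^ 2 * (C c * (p ^ m * ((m : MvPolynomial X ℂ) * pderiv j p * ψ + p * pderiv j ψ)) * Ψ +
              p * (p ^ m * ψ) * S) := by
            rw [pow_add]
            ring
        _ = B ^ 2 * (C c * (p * pderiv j φ) * Ψ + p * φ * S) := by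
          rw [← h1, ← hψ, ← hB']
        _ = p * (B ^ 2 * (C c * pderiv j φ * Ψ + φ * S)) := by ring
        _ = p * (φ * Ψ * (B * pderiv j A - A * pderiv j B)) := h4
        _ = φ * Ψ * (p * B * pderiv j A - A * (p * pderiv j B)) := by ring
        _ = (p ^ m * ψ) * Ψ * (p * (p ^ b * B') * pderiv j A -
              A * (p ^ b * ((b : MvPolynomial X ℂ) * pderiv j p * B' + p * pderiv j B'))) := by
          rw [h2, ← hψ, ← hB']
        _ = _ := by
          rw [pow_add]
          ring
    have h4 := mul_left_cancel₀ (pow_ne_zero (m + b) hp0) h3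
    have h5 : p ∣ ψ * Ψ * (A * ((b : MvPolynomial X ℂ) * pderiv j p * B')) := by
      obtain ⟨q, hq⟩ : p ∣ p ^ b := dvd_pow_self p (by omega)
      have h6 : ψ * Ψ * (A * ((b : MvPolynomial X ℂ) * pderiv j p * B')) =
          p * (ψ * Ψ * (B' * pderiv j A - A * pderiv j B') -
            q * (B' ^ 2 * (C c * ((m : MvPolynomial X ℂ) * pderiv j p * ψ + p * pderiv j ψ) * Ψ + p * ψ * S))) := by
        have h7 := h4
        rw [hq] at h7
        linear_combination h7
      rw [h6]
      exact dvd_mul_right _ _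
    rcases hp.dvd_or_dvd h5 with h6 | h6
    · rcases hp.dvd_or_dvd h6 with h7 | h7
      · exact hψp h7
      · exact hpΨ h7
    rcases hp.dvd_or_dvd h6 with h7 | h7
    · exact hpA h7
    rcases hp.dvd_or_dvd h7 with h8 | h8
    · rcases hp.dvd_or_dvd h8 with h9 | h9
      · exact hcast b (by omega) h9
      · exact hpdp h9
    · exact hBp h8

/-- the exponential of a nonconstant polynomial has no rational power: the polynomial identity -/
theorem exp_poly (j : X) {n : ℂ} (hn : n ≠ 0) {r s ψ : MvPolynomial X ℂ} (hr : r ≠ 0) (hs : s ≠ 0)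
    (h : C n * s * pderiv j ψ * r = s * pderiv j r - r * pderiv j s) : pderiv j ψ = 0 := by
  by_contra hψ
  have hC : (C n : MvPolynomial X ℂ) ≠ 0 := by
    rw [Ne, C_eq_zero]
    exact hn
  have h1 : (C n * s * pderiv j ψ * r).degreeOf j = s.degreeOf j + (pderiv j ψ).degreeOf j + r.degreeOf j := by
    rw [degreeOf_mul_eq (mul_ne_zero (mul_ne_zero hC hs) hψ) hr, degreeOf_mul_eq (mul_ne_zero hC hs) hψ,
      degreeOf_mul_eq hC hs, degreeOf_C, zero_add]
  have hne : s * pderiv j r - r * pderiv j s ≠ 0 := by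
    rw [← h]
    exact mul_ne_zero (mul_ne_zero (mul_ne_zero hC hs) hψ) hr
  -- each term has smaller degree
  have h2 : ∀ a b : MvPolynomial X ℂ, a ≠ 0 → a * pderiv j b ≠ 0 →
      (a * pderiv j b).degreeOf j < a.degreeOf j + b.degreeOf j := by
    intro a b ha hab
    have hb : pderiv j b ≠ 0 := right_ne_zero_of_mul hab
    rw [degreeOf_mul_eq ha hb]
    have := degreeOf_pderiv_lt j b hb
    omega
  have h3 : (s * pderiv j r - r * pderiv j s).degreeOf j < s.degreeOf j + r.degreeOf j := by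
    by_cases ha : s * pderiv j r = 0
    · rw [ha, zero_sub, degreeOf_neg]
      rw [ha, zero_sub, neg_ne_zero] at hne
      have := h2 r s hr hne
      omega
    · by_cases hb : r * pderiv j s = 0
      · rw [hb, sub_zero]
        exact h2 s r hs ha
      · have h4 := h2 s r hs ha
        have h5 := h2 r s hr hb
        have h6 := degreeOf_sub_le j (s * pderiv j r) (r * pderiv j s)
        omega
  rw [← h, h1] at h3
  omega

end poly

end Pool.Agent.Q311.KO
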