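import Pool.Agent.Y890.MV.Ana
import Pool.Agent.H187R3.Alg

/-!
# The field of meromorphic functions on a connected open subset of `ℂ ^ X`, with the partial derivatives
-/

set_option autoImplicit false
set_option linter.unusedSectionVars false

open Filter Topology

namespace Pool.Agent.Q311.KO

open Pool.Agent.Y890.MV

variable {X : Type} [Fintype X]

theorem an_add {U : Set (X → ℂ)} {f g : (X → ℂ) → ℂ} (hf : AnalyticOnNhd ℂ f U) (hg : AnalyticOnNhd ℂ g U) :
    AnalyticOnNhd ℂ (fun x => f x + g x) U := fun x hx => (hf x hx).add (hg x hx)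

theorem an_mul {U : Set (X → ℂ)} {f g : (X → ℂ) → ℂ} (hf : AnalyticOnNhd ℂ f U) (hg : AnalyticOnNhd ℂ g U) :
    AnalyticOnNhd ℂ (fun x => f x * g x) U := fun x hx => (hf x hx).mul (hg x hx)

theorem an_const {U : Set (X → ℂ)} (c : ℂ) : AnalyticOnNhd ℂ (fun _ : X → ℂ => c) U := fun _ _ => analyticAt_const

theorem an_cmul {U : Set (X → ℂ)} (c : ℂ) {f : (X → ℂ) → ℂ} (hf : AnalyticOnNhd ℂ f U) :
    AnalyticOnNhd ℂ (fun x => c * f x) U := an_mul (an_const c) hf

/-- restrictions to `U` of functions which are analytic on `U` -/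
def AnR (U : Set (X → ℂ)) : Subalgebra ℂ (U → ℂ) where
  carrier := {F | ∃ f : (X → ℂ) → ℂ, AnalyticOnNhd ℂ f U ∧ ∀ x : U, F x = f x}
  mul_mem' := by
    rintro _ _ ⟨f, hf, hf'⟩ ⟨g, hg, hg'⟩
    exact ⟨fun x => f x * g x, an_mul hf hg, fun x => by rw [Pi.mul_apply, hf', hg']⟩
  add_mem' := by
    rintro _ _ ⟨f, hf, hf'⟩ ⟨g, hg, hg'⟩
    exact ⟨fun x => f x + g x, an_add hf hg, fun x => by rw [Pi.add_apply, hf', hg']⟩
  algebraMap_mem' c := ⟨fun _ => c, an_const c, fun _ => rfl⟩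

variable {U : Set (X → ℂ)}

/-- the element given by an analytic function -/
def mkA (f : (X → ℂ) → ℂ) (hf : AnalyticOnNhd ℂ f U) : AnR U := ⟨fun x => f x, f, hf, fun _ => rfl⟩

@[simp] theorem mkA_apply (f : (X → ℂ) → ℂ) (hf : AnalyticOnNhd ℂ f U) (x : U) : (mkA f hf).1 x = f x := rfl

theorem mkA_eq {f g : (X → ℂ) → ℂ} {hf : AnalyticOnNhd ℂ f U} {hg : AnalyticOnNhd ℂ g U} :
    mkA f hf = mkA g hg ↔ ∀ x ∈ U, f x = g x := by
  constructor
  · intro h x hx
    exact congrFun (congrArg Subtype.val h) ⟨x, hx⟩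
  · intro h
    exact Subtype.ext (funext fun x => h x.1 x.2)

theorem mkA_zero {f : (X → ℂ) → ℂ} {hf : AnalyticOnNhd ℂ f U} : mkA f hf = 0 ↔ ∀ x ∈ U, f x = 0 := by
  constructor
  · intro h x hx
    exact congrFun (congrArg Subtype.val h) ⟨x, hx⟩
  · intro h
    exact Subtype.ext (funext fun x => h x.1 x.2)

/-- a representative -/
noncomputable def rep (F : AnR U) : (X → ℂ) → ℂ := Classical.choose F.2

theorem rep_an (F : AnR U) : AnalyticOnNhd ℂ (rep F) U := (Classical.choose_spec F.2).1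

theorem mkA_rep (F : AnR U) : mkA (rep F) (rep_an F) = F :=
  Subtype.ext (funext fun x => ((Classical.choose_spec F.2).2 x).symm)

theorem mkA_surj (F : AnR U) : ∃ f, ∃ hf : AnalyticOnNhd ℂ f U, F = mkA f hf := ⟨rep F, rep_an F, (mkA_rep F).symm⟩

theorem mkA_add {f g : (X → ℂ) → ℂ} (hf : AnalyticOnNhd ℂ f U) (hg : AnalyticOnNhd ℂ g U) :
    mkA f hf + mkA g hg = mkA (fun x => f x + g x) (an_add hf hg) := rfl

theorem mkA_mul {f g : (X → ℂ) → ℂ} (hf : AnalyticOnNhd ℂ f U) (hg : AnalyticOnNhd ℂ g U) :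
    mkA f hf * mkA g hg = mkA (fun x => f x * g x) (an_mul hf hg) := rfl

theorem mkA_smul (c : ℂ) {f : (X → ℂ) → ℂ} (hf : AnalyticOnNhd ℂ f U) :
    c • mkA f hf = mkA (fun x => c * f x) (an_cmul c hf) := rfl

theorem mkA_const (c : ℂ) : (algebraMap ℂ (AnR U) c) = mkA (fun _ => c) (an_const c) := rfl

/-- the partial derivative of a function -/
noncomputable def pd [DecidableEq X] (j : X) (f : (X → ℂ) → ℂ) : (X → ℂ) → ℂ := fun x => fderiv ℂ f x (Pi.single j 1)

theorem pd_an [DecidableEq X] (j : X) {f : (X → ℂ) → ℂ} (hf : AnalyticOnNhd ℂ f U) : AnalyticOnNhd ℂ (pd j f) U := by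
  intro x hx
  exact ((ContinuousLinearMap.apply ℂ ℂ (Pi.single j (1 : ℂ) : X → ℂ)).analyticAt _).comp (hf.fderiv x hx)

theorem pd_congr [DecidableEq X] (hUo : IsOpen U) (j : X) {f g : (X → ℂ) → ℂ} (h : ∀ x ∈ U, f x = g x) {x : X → ℂ}
    (hx : x ∈ U) : pd j f x = pd j g x := by
  have h1 : f =ᶠ[𝓝 x] g := by
    filter_upwards [hUo.mem_nhds hx] with y hy
    exact h y hy
  unfold pd
  rw [h1.fderiv_eq]

theorem pd_mul [DecidableEq X] (j : X) {f g : (X → ℂ) → ℂ} {x : X → ℂ} (hf : AnalyticAt ℂ f x) (hg : AnalyticAt ℂ g x) :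
    pd j (fun x => f x * g x) x = f x * pd j g x + g x * pd j f x := by
  unfold pd
  rw [fderiv_fun_mul hf.differentiableAt hg.differentiableAt]
  simp

theorem pd_add [DecidableEq X] (j : X) {f g : (X → ℂ) → ℂ} {x : X → ℂ} (hf : AnalyticAt ℂ f x) (hg : AnalyticAt ℂ g x) :
    pd j (fun x => f x + g x) x = pd j f x + pd j g x := by
  unfold pd
  rw [fderiv_fun_add hf.differentiableAt hg.differentiableAt]
  simp

theorem pd_const_mul [DecidableEq X] (j : X) (c : ℂ) {f : (X → ℂ) → ℂ} {x : X → ℂ} (hf : AnalyticAt ℂ f x) :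
    pd j (fun x => c * f x) x = c * pd j f x := by
  unfold pd
  rw [fderiv_const_mul hf.differentiableAt]
  simp

theorem rep_add (F G : AnR U) {x : X → ℂ} (hx : x ∈ U) : rep (F + G) x = rep F x + rep G x := by
  have h1 := (Classical.choose_spec (F + G).2).2 ⟨x, hx⟩
  have h2 := (Classical.choose_spec F.2).2 ⟨x, hx⟩
  have h3 := (Classical.choose_spec G.2).2 ⟨x, hx⟩
  have h4 : (F + G).1 ⟨x, hx⟩ = F.1 ⟨x, hx⟩ + G.1 ⟨x, hx⟩ := rfl
  exact (h1.symm.trans h4).trans (by rw [h2, h3]; rfl)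

theorem rep_mul (F G : AnR U) {x : X → ℂ} (hx : x ∈ U) : rep (F * G) x = rep F x * rep G x := by
  have h1 := (Classical.choose_spec (F * G).2).2 ⟨x, hx⟩
  have h2 := (Classical.choose_spec F.2).2 ⟨x, hx⟩
  have h3 := (Classical.choose_spec G.2).2 ⟨x, hx⟩
  have h4 : (F * G).1 ⟨x, hx⟩ = F.1 ⟨x, hx⟩ * G.1 ⟨x, hx⟩ := rfl
  exact (h1.symm.trans h4).trans (by rw [h2, h3]; rfl)

theorem rep_smul (c : ℂ) (F : AnR U) {x : X → ℂ} (hx : x ∈ U) : rep (c • F) x = c * rep F x := by
  have h1 := (Classical.choose_spec (c • F).2).2 ⟨x, hx⟩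
  have h2 := (Classical.choose_spec F.2).2 ⟨x, hx⟩
  have h4 : (c • F).1 ⟨x, hx⟩ = c * F.1 ⟨x, hx⟩ := rfl
  exact (h1.symm.trans h4).trans (by rw [h2]; rfl)

theorem rep_mk {f : (X → ℂ) → ℂ} (hf : AnalyticOnNhd ℂ f U) {x : X → ℂ} (hx : x ∈ U) : rep (mkA f hf) x = f x :=
  ((Classical.choose_spec (mkA f hf).2).2 ⟨x, hx⟩).symm

/-- the partial derivative as a map -/
noncomputable def d0 [DecidableEq X] (j : X) (F : AnR U) : AnR U := mkA (pd j (rep F)) (pd_an j (rep_an F))

theorem d0_add [DecidableEq X] (hUo : IsOpen U) (j : X) (F G : AnR U) : d0 j (F + G) = d0 j F + d0 j G := by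
  unfold d0
  rw [mkA_add]
  refine mkA_eq.2 fun x hx => ?_
  rw [← pd_add j (rep_an F x hx) (rep_an G x hx)]
  exact pd_congr hUo j (fun y hy => rep_add F G hy) hx

theorem d0_smul [DecidableEq X] (hUo : IsOpen U) (j : X) (c : ℂ) (F : AnR U) : d0 j (c • F) = c • d0 j F := by
  unfold d0
  rw [mkA_smul]
  refine mkA_eq.2 fun x hx => ?_
  rw [← pd_const_mul j c (rep_an F x hx)]
  exact pd_congr hUo j (fun y hy => rep_smul c F hy) hx

theorem d0_mul [DecidableEq X] (hUo : IsOpen U) (j : X) (F G : AnR U) : d0 j (F * G) = F * d0 j G + G * d0 j F := by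
  have h1 : F * d0 j G = mkA (fun x => rep F x * pd j (rep G) x) (an_mul (rep_an F) (pd_an j (rep_an G))) := by
    rw [← mkA_mul (rep_an F) (pd_an j (rep_an G)), mkA_rep]
    rfl
  have h2 : G * d0 j F = mkA (fun x => rep G x * pd j (rep F) x) (an_mul (rep_an G) (pd_an j (rep_an F))) := by
    rw [← mkA_mul (rep_an G) (pd_an j (rep_an F)), mkA_rep]
    rfl
  rw [h1, h2, mkA_add]
  unfold d0
  refine mkA_eq.2 fun x hx => ?_
  rw [← pd_mul j (rep_an F x hx) (rep_an G x hx)]
  exact pd_congr hUo j (fun y hy => rep_mul F G hy) hx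

/-- the partial derivative on the ring of analytic functions -/
noncomputable def dA [DecidableEq X] (hUo : IsOpen U) (j : X) : Derivation ℂ (AnR U) (AnR U) :=
  Derivation.mk' { toFun := d0 j, map_add' := d0_add hUo j, map_smul' := d0_smul hUo j } (d0_mul hUo j)

theorem dA_mk [DecidableEq X] (hUo : IsOpen U) (j : X) {f : (X → ℂ) → ℂ} (hf : AnalyticOnNhd ℂ f U) :
    dA hUo j (mkA f hf) = mkA (pd j f) (pd_an j hf) := by
  change d0 j (mkA f hf) = _
  unfold d0
  refine mkA_eq.2 fun x hx => ?_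
  exact pd_congr hUo j (fun y hy => rep_mk hf hy) hx

theorem dom (hU : IsPreconnected U) (hUo : IsOpen U) (hne : U.Nonempty) : IsDomain (AnR U) := by
  have h0 : Nontrivial (AnR U) := by
    refine ⟨0, 1, fun h => ?_⟩
    obtain ⟨x, hx⟩ := hne
    have h1 := congrFun (congrArg Subtype.val h) ⟨x, hx⟩
    exact zero_ne_one h1
  have h1 : NoZeroDivisors (AnR U) := by
    refine ⟨fun {F G} h => ?_⟩
    obtain ⟨f, hf, rfl⟩ := mkA_surj F
    obtain ⟨g, hg, rfl⟩ := mkA_surj G
    rw [mkA_mul] at h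
    have h1 := mkA_zero.1 h
    rw [mkA_zero, mkA_zero]
    refine zero_or_zero hf hg hU ?_
    rw [hUo.nhdsSet_eq, eventually_principal]
    exact h1
  exact NoZeroDivisors.to_isDomain _

/-- the field of meromorphic functions on `U` with the partial derivatives: the properties which are used -/
structure IsMer [DecidableEq X] (U : Set (X → ℂ)) (M : Type) [Field M] [Algebra ℂ M] (D : X → Derivation ℂ M M)
    (T : AnR U →ₐ[ℂ] M) : Prop where
  inj : Function.Injective T
  der : ∀ (j : X) (f : (X → ℂ) → ℂ) (hf : AnalyticOnNhd ℂ f U), D j (T (mkA f hf)) = T (mkA (pd j f) (pd_an j hf))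
  frac : ∀ m : M, ∃ F G : AnR U, T G ≠ 0 ∧ T G * m = T F
  const : ∀ m : M, (∀ j, D j m = 0) → ∃ c : ℂ, algebraMap ℂ M c = m

theorem exists_mer [DecidableEq X] (hU : IsPreconnected U) (hUo : IsOpen U) (hne : U.Nonempty) :
    ∃ (M : Type) (_ : Field M) (_ : Algebra ℂ M) (D : X → Derivation ℂ M M) (T : AnR U →ₐ[ℂ] M), IsMer U M D T := by
  classical
  have hdom := dom hU hUo hne
  let M := FractionRing (AnR U)
  have hD : ∀ j, ∃ D : Derivation ℂ M M, ∀ a, D (algebraMap (AnR U) M a) = algebraMap (AnR U) M (dA hUo j a) := by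
    intro j
    obtain ⟨D, hD⟩ := Pool.Agent.H187R3.exists_derivation_extension (A := AnR U) (K := M)
      ((Algebra.linearMap (AnR U) M).compDer (dA hUo j))
    exact ⟨D, fun a => by rw [hD a]; rfl⟩
  choose D hD using hD
  let T : AnR U →ₐ[ℂ] M := IsScalarTower.toAlgHom ℂ (AnR U) M
  have hT : ∀ a, T a = algebraMap (AnR U) M a := fun a => rfl
  have hinj : Function.Injective T := IsFractionRing.injective (AnR U) M
  have hder : ∀ (j : X) (f : (X → ℂ) → ℂ) (hf : AnalyticOnNhd ℂ f U),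
      D j (T (mkA f hf)) = T (mkA (pd j f) (pd_an j hf)) := by
    intro j f hf
    rw [hT, hD, dA_mk]
    rfl
  have hfrac : ∀ m : M, ∃ F G : AnR U, T G ≠ 0 ∧ T G * m = T F := by
    intro m
    obtain ⟨a, b, hb, rfl⟩ := IsFractionRing.div_surjective (A := AnR U) m
    have hb0 : T b ≠ 0 := by
      rw [Ne, map_eq_zero_iff _ hinj]
      exact nonZeroDivisors.ne_zero hb
    exact ⟨a, b, hb0, mul_div_cancel₀ _ hb0⟩
  refine ⟨M, inferInstance, inferInstance, D, T, hinj, hder, hfrac, ?_⟩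
  intro m hm
  obtain ⟨F, G, hG, hFG⟩ := hfrac m
  obtain ⟨f, hf, rfl⟩ := mkA_surj F
  obtain ⟨g, hg, rfl⟩ := mkA_surj G
  have hg0 : ∃ x ∈ U, g x ≠ 0 := by
    by_contra hcon
    push Not at hcon
    apply hG
    rw [mkA_zero.2 hcon, map_zero]
  obtain ⟨x0, hx0, hgx0⟩ := hg0
  -- the derivatives of `f / g` vanish
  have h1 : ∀ j, ∀ x ∈ U, pd j f x * g x = f x * pd j g x := by
    intro j
    have h2 := congrArg (D j) hFG
    rw [Derivation.leibniz, hm j, smul_zero, zero_add, hder, hder, smul_eq_mul] at h2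
    have h3 : T (mkA (pd j f) (pd_an j hf)) * T (mkA g hg) = T (mkA f hf) * T (mkA (pd j g) (pd_an j hg)) := by
      rw [← h2, ← hFG]
      ring
    rw [← map_mul, ← map_mul] at h3
    have h4 := hinj h3
    rw [mkA_mul, mkA_mul] at h4
    exact mkA_eq.1 h4
  -- so `f / g` is constant near `x0`
  have hgev : ∀ᶠ x in 𝓝 x0, g x ≠ 0 := (hg x0 hx0).continuousAt.eventually_ne hgx0
  obtain ⟨r, hr, hball⟩ := Metric.eventually_nhds_iff_ball.1 (hgev.and (hUo.mem_nhds hx0))
  have hq : ∀ x ∈ Metric.ball x0 r, HasFDerivAt (fun x => f x / g x) (0 : (X → ℂ) →L[ℂ] ℂ) x := by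
    intro x hx
    obtain ⟨hgx, hxU⟩ := hball x hx
    have hfd := (hf x hxU).differentiableAt
    have hgd := (hg x hxU).differentiableAt
    have h5 : DifferentiableAt ℂ (fun x => f x / g x) x := ((hf x hxU).div (hg x hxU) hgx).differentiableAt
    have h6 : fderiv ℂ (fun x => f x / g x) x = 0 := by
      have h7 : ∀ j, pd j (fun x => f x / g x) x = 0 := by
        intro j
        have h8 : pd j (fun x => (f x / g x) * g x) x = (f x / g x) * pd j g x + g x * pd j (fun x => f x / g x) x :=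
          pd_mul j ((hf x hxU).div (hg x hxU) hgx) (hg x hxU)
        have h9 : pd j (fun x => (f x / g x) * g x) x = pd j f x := by
          unfold pd
          have h10 : (fun x => (f x / g x) * g x) =ᶠ[𝓝 x] f := by
            filter_upwards [(hg x hxU).continuousAt.eventually_ne hgx] with y hy
            exact div_mul_cancel₀ _ hy
          rw [h10.fderiv_eq]
        rw [h9] at h8
        have h11 := h1 j x hxU
        have h12 : g x * (g x * pd j (fun x => f x / g x) x) = 0 := by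
          have h13 : g x * pd j (fun x => f x / g x) x = pd j f x - (f x / g x) * pd j g x := by
            rw [h8]
            ring
          rw [h13, mul_sub, ← mul_assoc, mul_div_cancel₀ _ hgx, mul_comm (g x), h11, sub_self]
        rcases mul_eq_zero.1 h12 with h13 | h13
        · exact absurd h13 hgx
        · exact (mul_eq_zero.1 h13).resolve_left hgx
      apply ContinuousLinearMap.ext
      intro v
      rw [ContinuousLinearMap.zero_apply]
      have h8 : v = ∑ j, v j • (Pi.single j (1 : ℂ) : X → ℂ) := by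
        funext i
        simp [Finset.sum_apply, Pi.single_apply]
      rw [h8, map_sum]
      refine Finset.sum_eq_zero fun j _ => ?_
      rw [map_smul]
      have h9 := h7 j
      unfold pd at h9
      rw [h9, smul_zero]
    rw [← h6]
    exact h5.hasFDerivAt
  have hconst : ∀ x ∈ Metric.ball x0 r, f x / g x = f x0 / g x0 := by
    intro x hx
    have h5 := (convex_ball x0 r).norm_image_sub_le_of_norm_hasFDerivWithin_le (f := fun x => f x / g x)
      (f' := fun _ => (0 : (X → ℂ) →L[ℂ] ℂ)) (C := 0) (fun y hy => (hq y hy).hasFDerivWithinAt) (fun y _ => by simp)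
      (Metric.mem_ball_self hr) hx
    rw [zero_mul, norm_le_zero_iff, sub_eq_zero] at h5
    exact h5
  refine ⟨f x0 / g x0, ?_⟩
  have h5 : ∀ x ∈ U, f x = (f x0 / g x0) * g x := by
    have h6 : AnalyticOnNhd ℂ (fun x => f x - (f x0 / g x0) * g x) U :=
      fun x hx => (hf x hx).sub (analyticAt_const.mul (hg x hx))
    have h7 : (fun x => f x - (f x0 / g x0) * g x) =ᶠ[𝓝 x0] 0 := by
      filter_upwards [Metric.ball_mem_nhds x0 hr] with x hx
      have h8 := hconst x hx
      rw [← h8, div_mul_cancel₀ _ (hball x hx).1, sub_self]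
      rfl
    intro x hx
    exact sub_eq_zero.1 (h6.eqOn_zero_of_preconnected_of_eventuallyEq_zero hU hx0 h7 hx)
  have h6 : mkA f hf = algebraMap ℂ (AnR U) (f x0 / g x0) * mkA g hg := by
    rw [mkA_const]
    exact (mkA_eq (hf := hf) (hg := an_cmul (f x0 / g x0) hg)).2 h5
  rw [h6, map_mul, AlgHom.commutes, mul_comm] at hFG
  exact (mul_right_cancel₀ hG hFG).symm

end Pool.Agent.Q311.KO
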