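import Pool.Agent.Q311.KO.Alg
import Pool.Agent.Q311.KO.Mer

/-!
# Towers of primitives over the field generated by analytic functions of several variables
-/

set_option autoImplicit false
set_option linter.unusedSectionVars false

open Filter Topology

namespace Pool.Agent.Q311.KO

open Pool.Agent.Y890.MV

variable {X : Type} [Fintype X] [DecidableEq X] {U : Set (X → ℂ)}

theorem an_coord (i : X) : AnalyticOnNhd ℂ (fun x : X → ℂ => x i) U :=
  fun x _ => (ContinuousLinearMap.proj (R := ℂ) (φ := fun _ : X => ℂ) i).analyticAt x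

variable {M : Type} [Field M] [Algebra ℂ M] {D : X → Derivation ℂ M M} {T : AnR U →ₐ[ℂ] M}

/-- the coordinates in `M` -/
noncomputable def xc (T : AnR U →ₐ[ℂ] M) (i : X) : M := T (mkA (fun x => x i) (an_coord i))

/-- functions in `M` -/
noncomputable def fm {σ : Type} (T : AnR U →ₐ[ℂ] M) (f : σ → (X → ℂ) → ℂ) (hf : ∀ i, AnalyticOnNhd ℂ (f i) U)
    (i : σ) : M := T (mkA (f i) (hf i))

theorem poly_an (p : MvPolynomial X ℂ) : AnalyticOnNhd ℂ (fun x => MvPolynomial.eval x p) U :=
  fun x _ => AnalyticOnNhd.eval_mvPolynomial p x trivial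

theorem aeval_xc (p : MvPolynomial X ℂ) :
    MvPolynomial.aeval (xc T) p = T (mkA (fun x => MvPolynomial.eval x p) (poly_an p)) := by
  induction p using MvPolynomial.induction_on with
  | C a =>
    rw [MvPolynomial.algHom_C, ← AlgHom.commutes T a, mkA_const]
    congr 1
    exact mkA_eq.2 fun x _ => (MvPolynomial.eval_C a).symm
  | add p q hp hq =>
    rw [map_add, hp, hq, ← map_add, mkA_add]
    congr 1
    exact mkA_eq.2 fun x _ => (map_add _ _ _).symm
  | mul_X p i hp =>
    rw [map_mul, hp, MvPolynomial.aeval_X, xc, ← map_mul, mkA_mul]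
    congr 1
    refine mkA_eq.2 fun x _ => ?_
    rw [map_mul, MvPolynomial.eval_X]

theorem aeval_fm {σ : Type} (f : σ → (X → ℂ) → ℂ) (hf : ∀ i, AnalyticOnNhd ℂ (f i) U)
    (P : MvPolynomial σ (MvPolynomial X ℂ)) :
    MvPolynomial.eval₂ (MvPolynomial.aeval (xc T)).toRingHom (fm T f hf) P =
      T (mkA (fun x => evM f x P) (evM_an hf P)) := by
  induction P using MvPolynomial.induction_on with
  | C a =>
    rw [MvPolynomial.eval₂_C]
    change MvPolynomial.aeval (xc T) a = _
    rw [aeval_xc]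
    congr 1
    exact mkA_eq.2 fun x _ => (evM_C x a).symm
  | add p q hp hq =>
    rw [MvPolynomial.eval₂_add, hp, hq, ← map_add, mkA_add]
    congr 1
    exact mkA_eq.2 fun x _ => (evM_add x p q).symm
  | mul_X p i hp =>
    rw [MvPolynomial.eval₂_mul, hp, MvPolynomial.eval₂_X, fm, ← map_mul, mkA_mul]
    congr 1
    refine mkA_eq.2 fun x _ => ?_
    rw [evM_mul, evM_X]

/-- the generators of the field of the functions -/
noncomputable def gens {σ : Type} (T : AnR U →ₐ[ℂ] M) (f : σ → (X → ℂ) → ℂ) (hf : ∀ i, AnalyticOnNhd ℂ (f i) U) :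
    Set M := Set.range (xc T) ∪ Set.range (fm T f hf)

theorem ev_mem {σ : Type} (f : σ → (X → ℂ) → ℂ) (hf : ∀ i, AnalyticOnNhd ℂ (f i) U)
    (P : MvPolynomial σ (MvPolynomial X ℂ)) :
    T (mkA (fun x => evM f x P) (evM_an hf P)) ∈ IntermediateField.adjoin ℂ (gens T f hf) := by
  rw [← aeval_fm f hf]
  have h1 : ∀ p : MvPolynomial X ℂ, MvPolynomial.aeval (xc T) p ∈ IntermediateField.adjoin ℂ (gens T f hf) := by
    intro p
    induction p using MvPolynomial.induction_on with
    | C a =>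
      rw [MvPolynomial.algHom_C]
      exact IntermediateField.algebraMap_mem _ a
    | add p q hp hq =>
      rw [map_add]
      exact add_mem hp hq
    | mul_X p i hp =>
      rw [map_mul, MvPolynomial.aeval_X]
      exact mul_mem hp (IntermediateField.subset_adjoin _ _ (Or.inl ⟨i, rfl⟩))
  induction P using MvPolynomial.induction_on with
  | C a =>
    rw [MvPolynomial.eval₂_C]
    exact h1 a
  | add p q hp hq =>
    rw [MvPolynomial.eval₂_add]
    exact add_mem hp hq
  | mul_X p i hp =>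
    rw [MvPolynomial.eval₂_mul, MvPolynomial.eval₂_X]
    exact mul_mem hp (IntermediateField.subset_adjoin _ _ (Or.inr ⟨i, rfl⟩))

theorem mem_gens {σ : Type} (f : σ → (X → ℂ) → ℂ) (hf : ∀ i, AnalyticOnNhd ℂ (f i) U) {m : M}
    (hm : m ∈ IntermediateField.adjoin ℂ (gens T f hf)) : ∃ P Q : MvPolynomial σ (MvPolynomial X ℂ),
      T (mkA (fun x => evM f x Q) (evM_an hf Q)) ≠ 0 ∧
      T (mkA (fun x => evM f x Q) (evM_an hf Q)) * m = T (mkA (fun x => evM f x P) (evM_an hf P)) := by
  have hr : gens T f hf = Set.range (Sum.elim (fm T f hf) (xc T)) := by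
    rw [Set.Sum.elim_range, Set.union_comm]
    rfl
  rw [hr, IntermediateField.mem_adjoin_range_iff] at hm
  obtain ⟨r, s, hrs⟩ := hm
  have h1 : ∀ p : MvPolynomial (σ ⊕ X) ℂ, MvPolynomial.aeval (Sum.elim (fm T f hf) (xc T)) p =
      T (mkA (fun x => evM f x (MvPolynomial.sumAlgEquiv ℂ σ X p))
        (evM_an hf (MvPolynomial.sumAlgEquiv ℂ σ X p))) := by
    intro p
    rw [← aeval_fm f hf]
    induction p using MvPolynomial.induction_on with
    | C a =>
      rw [MvPolynomial.algHom_C]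
      have h2 : MvPolynomial.sumAlgEquiv ℂ σ X (MvPolynomial.C a) = MvPolynomial.C (MvPolynomial.C a) :=
        MvPolynomial.sumAlgEquiv_C_inl ℂ σ X a
      rw [h2, MvPolynomial.eval₂_C]
      change _ = MvPolynomial.aeval (xc T) (MvPolynomial.C a)
      rw [MvPolynomial.algHom_C]
    | add p q hp hq => rw [map_add, map_add, MvPolynomial.eval₂_add, hp, hq]
    | mul_X p i hp =>
      rw [map_mul, map_mul, MvPolynomial.eval₂_mul, hp, MvPolynomial.aeval_X]
      congr 1
      rcases i with i | i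
      · have h2 : MvPolynomial.sumAlgEquiv ℂ σ X (MvPolynomial.X (Sum.inl i)) = MvPolynomial.X i :=
          MvPolynomial.sumAlgEquiv_X_inl ℂ σ X i
        rw [h2, MvPolynomial.eval₂_X]
        rfl
      · have h2 : MvPolynomial.sumAlgEquiv ℂ σ X (MvPolynomial.X (Sum.inr i)) =
            MvPolynomial.C (MvPolynomial.X i) := MvPolynomial.sumAlgEquiv_X_inr ℂ σ X i
        rw [h2, MvPolynomial.eval₂_C]
        change _ = MvPolynomial.aeval (xc T) (MvPolynomial.X i)
        rw [MvPolynomial.aeval_X]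
        rfl
  by_cases hs : MvPolynomial.aeval (Sum.elim (fm T f hf) (xc T)) s = 0
  · refine ⟨0, 1, ?_, ?_⟩
    · have h2 : mkA (fun x => evM f x 1) (evM_an hf 1) = (1 : AnR U) := by
        refine Subtype.ext (funext fun x => ?_)
        change evM f x 1 = 1
        exact MvPolynomial.eval₂_one _ _
      rw [h2, map_one]
      exact one_ne_zero
    · rw [hrs, hs, div_zero, mul_zero]
      have h2 : mkA (fun x => evM f x 0) (evM_an hf 0) = (0 : AnR U) := by
        refine Subtype.ext (funext fun x => ?_)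
        change evM f x 0 = 0
        exact MvPolynomial.eval₂_zero _ _
      rw [h2, map_zero]
  · refine ⟨MvPolynomial.sumAlgEquiv ℂ σ X r, MvPolynomial.sumAlgEquiv ℂ σ X s, ?_, ?_⟩
    · rw [← h1]
      exact hs
    · rw [← h1, ← h1, hrs, mul_div_cancel₀ _ hs]

/-- the field of rational functions -/
noncomputable def k0 (T : AnR U →ₐ[ℂ] M) : IntermediateField ℂ M := IntermediateField.adjoin ℂ (Set.range (xc T))

theorem mem_k0 {m : M} (hm : m ∈ k0 T) :
    ∃ p q : MvPolynomial X ℂ, q ≠ 0 ∧ MvPolynomial.aeval (xc T) q * m = MvPolynomial.aeval (xc T) p := by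
  rw [k0, IntermediateField.mem_adjoin_range_iff] at hm
  obtain ⟨r, s, hrs⟩ := hm
  by_cases hs : MvPolynomial.aeval (xc T) s = 0
  · refine ⟨0, 1, one_ne_zero, ?_⟩
    rw [hrs, hs, div_zero, mul_zero, map_zero]
  · refine ⟨r, s, ?_, ?_⟩
    · rintro rfl
      exact hs (map_zero _)
    · rw [hrs, mul_div_cancel₀ _ hs]

theorem aeval_xc_inj (hinj : Function.Injective T) (hUo : IsOpen U) (hne : U.Nonempty) {p : MvPolynomial X ℂ}
    (h : MvPolynomial.aeval (xc T) p = 0) : p = 0 := by
  rw [aeval_xc, map_eq_zero_iff _ hinj] at h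
  exact poly_zero hUo hne p (mkA_zero.1 h)

theorem aeval_mem_k0 (p : MvPolynomial X ℂ) : MvPolynomial.aeval (xc T) p ∈ k0 T := by
  induction p using MvPolynomial.induction_on with
  | C a =>
    rw [MvPolynomial.algHom_C]
    exact IntermediateField.algebraMap_mem _ a
  | add p q hp hq =>
    rw [map_add]
    exact add_mem hp hq
  | mul_X p i hp =>
    rw [map_mul, MvPolynomial.aeval_X]
    exact mul_mem hp (IntermediateField.subset_adjoin _ _ ⟨i, rfl⟩)

/-- regularity, from the field -/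
theorem reg_of {σ : Type} (hU : IsPreconnected U) (hUo : IsOpen U) (f : σ → (X → ℂ) → ℂ)
    (hf : ∀ i, AnalyticOnNhd ℂ (f i) U) (hM : IsMer U M D T)
    (h : ∀ a ∈ IntermediateField.adjoin ℂ (gens T f hf), IsAlgebraic (k0 T) a → a ∈ k0 T) : RegularM U f := by
  classical
  intro V g P Q R hVo hVne hVU hg hR hQ hPQ hRg
  have hne : U.Nonempty := hVne.mono hVU
  set N := R.natDegree with hN
  set W : MvPolynomial σ (MvPolynomial X ℂ) :=
    ∑ k ∈ Finset.range (N + 1), MvPolynomial.C (R.coeff k) * P ^ k * Q ^ (N - k) with hW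
  have hWev : ∀ x : X → ℂ, evM f x W =
      ∑ k ∈ Finset.range (N + 1), MvPolynomial.eval x (R.coeff k) * evM f x P ^ k * evM f x Q ^ (N - k) := by
    intro x
    have h1 : ∀ p, evM f x p = MvPolynomial.eval₂Hom (MvPolynomial.eval x) (fun i => f i x) p := fun p => rfl
    simp only [h1, hW, map_sum, map_mul, map_pow, MvPolynomial.eval₂Hom_C]
  have hWV : ∀ x ∈ V, evM f x W = 0 := by
    intro x hx
    rw [hWev]
    have h1 : evM f x P = evM f x Q * g x := (hPQ x hx).symm
    have h2 := hRg x hx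
    rw [Polynomial.eval_map, Polynomial.eval₂_eq_sum_range] at h2
    calc ∑ k ∈ Finset.range (N + 1), MvPolynomial.eval x (R.coeff k) * evM f x P ^ k * evM f x Q ^ (N - k)
        = evM f x Q ^ N * ∑ k ∈ Finset.range (N + 1), MvPolynomial.eval x (R.coeff k) * g x ^ k := by
          rw [Finset.mul_sum]
          refine Finset.sum_congr rfl fun k hk => ?_
          have hk' : k ≤ N := Nat.lt_succ_iff.1 (Finset.mem_range.1 hk)
          have h3 : evM f x Q ^ N = evM f x Q ^ (N - k) * evM f x Q ^ k := by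
            rw [← pow_add, Nat.sub_add_cancel hk']
          rw [h1, h3, mul_pow]
          ring
      _ = 0 := by rw [h2, mul_zero]
  have hWU : ∀ x ∈ U, evM f x W = 0 := by
    obtain ⟨x0, hx0⟩ := hVne
    have h1 : (fun x => evM f x W) =ᶠ[𝓝 x0] 0 := by
      filter_upwards [hVo.mem_nhds hx0] with x hx
      exact hWV x hx
    exact (evM_an hf W).eqOn_zero_of_preconnected_of_eventuallyEq_zero hU (hVU hx0) h1
  set φ : MvPolynomial σ (MvPolynomial X ℂ) →+* M :=
    MvPolynomial.eval₂Hom (MvPolynomial.aeval (xc T)).toRingHom (fm T f hf) with hφ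
  have hφe : ∀ P, φ P = T (mkA (fun x => evM f x P) (evM_an hf P)) := fun P => aeval_fm f hf P
  have hφ0 : φ W = 0 := by
    rw [hφe, mkA_zero.2 hWU, map_zero]
  have hφQ : φ Q ≠ 0 := by
    rw [hφe, Ne, map_eq_zero_iff _ hM.inj, mkA_zero]
    intro h1
    obtain ⟨x0, hx0⟩ := hVne
    exact hQ x0 hx0 (h1 x0 (hVU hx0))
  set m : M := φ P / φ Q with hm
  have hmF : m ∈ IntermediateField.adjoin ℂ (gens T f hf) := by
    rw [hm, hφe, hφe]
    exact div_mem (ev_mem f hf P) (ev_mem f hf Q)
  have hPm : φ P = φ Q * m := (mul_div_cancel₀ _ hφQ).symm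
  let ψ : MvPolynomial X ℂ →+* k0 T :=
    (MvPolynomial.aeval (xc T)).toRingHom.codRestrict (k0 T) (fun p => aeval_mem_k0 p)
  have hψ : ∀ p, ((ψ p : k0 T) : M) = MvPolynomial.aeval (xc T) p := fun p => rfl
  have hψinj : Function.Injective ψ := by
    rw [injective_iff_map_eq_zero]
    intro p hp
    refine aeval_xc_inj hM.inj hUo hne ?_
    rw [← hψ, hp]
    rfl
  have hmal : IsAlgebraic (k0 T) m := by
    refine ⟨R.map ψ, ?_, ?_⟩
    · rw [Ne, Polynomial.map_eq_zero_iff hψinj]
      exact hR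
    · rw [Polynomial.aeval_def, Polynomial.eval₂_map, Polynomial.eval₂_eq_sum_range]
      have h1 : φ W = φ Q ^ N * ∑ i ∈ Finset.range (N + 1), ((algebraMap (k0 T) M).comp ψ) (R.coeff i) * m ^ i := by
        rw [hW, map_sum, Finset.mul_sum]
        refine Finset.sum_congr rfl fun k hk => ?_
        have hk' : k ≤ N := Nat.lt_succ_iff.1 (Finset.mem_range.1 hk)
        have h3 : φ Q ^ N = φ Q ^ (N - k) * φ Q ^ k := by
          rw [← pow_add, Nat.sub_add_cancel hk']
        have h4 : φ (MvPolynomial.C (R.coeff k)) = ((algebraMap (k0 T) M).comp ψ) (R.coeff k) := by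
          rw [hφ, MvPolynomial.eval₂Hom_C]
          rfl
        rw [map_mul, map_mul, map_pow, map_pow, h4, hPm, h3, mul_pow]
        ring
      rw [h1] at hφ0
      exact (mul_eq_zero.1 hφ0).resolve_left (pow_ne_zero _ hφQ)
  obtain ⟨p, q, hq, hqp⟩ := mem_k0 (h m hmF hmal)
  refine ⟨p, q, hq, ?_⟩
  have h1 : MvPolynomial.aeval (xc T) q * φ P = MvPolynomial.aeval (xc T) p * φ Q := by
    rw [hPm, ← hqp]
    ring
  rw [aeval_xc, aeval_xc, hφe, hφe, ← map_mul, ← map_mul] at h1
  have h2 := hM.inj h1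
  rw [mkA_mul, mkA_mul] at h2
  have h3 := mkA_eq.1 h2
  intro x hx
  have h4 := h3 x (hVU hx)
  rw [← hPQ x hx] at h4
  have h5 : evM f x Q * (MvPolynomial.eval x q * g x) = evM f x Q * MvPolynomial.eval x p := by
    rw [mul_comm (evM f x Q) (MvPolynomial.eval x p), ← h4]
    ring
  exact mul_left_cancel₀ (hQ x hx) h5

end Pool.Agent.Q311.KO
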