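import Pool.Agent.Q311.KO.Reg

/-!
# Towers of primitives: regularity, and independence of primitives
-/

set_option autoImplicit false
set_option linter.unusedSectionVars false

open Filter Topology

namespace Pool.Agent.Q311.KO

open Pool.Agent.Y890.MV

variable {X : Type} [Fintype X] [DecidableEq X] {U : Set (X → ℂ)}

/-- the differential of `g` on `U` is a `1`-form whose coefficients are rational functions of the coordinates and of the
functions `f i` -/
def Prim {σ : Type} (U : Set (X → ℂ)) (f : σ → (X → ℂ) → ℂ) (g : (X → ℂ) → ℂ) : Prop :=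
  ∀ j : X, ∃ P Q : MvPolynomial σ (MvPolynomial X ℂ), (∃ x ∈ U, evM f x Q ≠ 0) ∧
    ∀ x ∈ U, evM f x Q * fderiv ℂ g x (Pi.single j 1) = evM f x P

variable {M : Type} [Field M] [Algebra ℂ M] {D : X → Derivation ℂ M M} {T : AnR U →ₐ[ℂ] M}

theorem prim_mem {σ : Type} (hM : IsMer U M D T) {f : σ → (X → ℂ) → ℂ} (hf : ∀ i, AnalyticOnNhd ℂ (f i) U)
    {g : (X → ℂ) → ℂ} (hg : AnalyticOnNhd ℂ g U) (h : Prim U f g) (j : X) :
    D j (T (mkA g hg)) ∈ IntermediateField.adjoin ℂ (gens T f hf) := by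
  obtain ⟨P, Q, ⟨x0, hx0, hQ⟩, hPQ⟩ := h j
  have h1 : T (mkA (fun x => evM f x Q) (evM_an hf Q)) ≠ 0 := by
    rw [Ne, map_eq_zero_iff _ hM.inj, mkA_zero]
    intro h2
    exact hQ (h2 x0 hx0)
  have h2 : T (mkA (fun x => evM f x Q) (evM_an hf Q)) * D j (T (mkA g hg)) =
      T (mkA (fun x => evM f x P) (evM_an hf P)) := by
    rw [hM.der, ← map_mul, mkA_mul]
    congr 1
    exact mkA_eq.2 hPQ
  have h3 : D j (T (mkA g hg)) = T (mkA (fun x => evM f x P) (evM_an hf P)) /
      T (mkA (fun x => evM f x Q) (evM_an hf Q)) := by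
    rw [← h2, mul_div_cancel_left₀ _ h1]
  rw [h3]
  exact div_mem (ev_mem f hf P) (ev_mem f hf Q)

theorem pd_coord (i j : X) (x : X → ℂ) : pd j (fun x : X → ℂ => x i) x = if i = j then 1 else 0 := by
  unfold pd
  have h1 : HasFDerivAt (fun x : X → ℂ => x i) (ContinuousLinearMap.proj (R := ℂ) (φ := fun _ : X => ℂ) i) x :=
    (ContinuousLinearMap.proj (R := ℂ) (φ := fun _ : X => ℂ) i).hasFDerivAt
  rw [h1.fderiv]
  simp [Pi.single_apply]

theorem closed_gens {σ : Type} (hM : IsMer U M D T) {f : σ → (X → ℂ) → ℂ} (hf : ∀ i, AnalyticOnNhd ℂ (f i) U)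
    (h : ∀ i, Prim U f (f i)) : Closed D (IntermediateField.adjoin ℂ (gens T f hf)) := by
  refine closed_adjoin _ ?_
  rintro j s (⟨i, rfl⟩ | ⟨i, rfl⟩)
  · rw [xc, hM.der]
    have h1 : mkA (pd j fun x : X → ℂ => x i) (pd_an j (an_coord i)) =
        algebraMap ℂ (AnR U) (if i = j then 1 else 0) := by
      rw [mkA_const]
      exact mkA_eq.2 fun x _ => pd_coord i j x
    rw [h1, AlgHom.commutes]
    exact IntermediateField.algebraMap_mem _ _
  · exact prim_mem hM hf (hf i) (h i) j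

theorem gens_sum {σ τ : Type} (f : σ → (X → ℂ) → ℂ) (hf : ∀ i, AnalyticOnNhd ℂ (f i) U) (g : τ → (X → ℂ) → ℂ)
    (hg : ∀ i, AnalyticOnNhd ℂ (g i) U) (h : ∀ i, AnalyticOnNhd ℂ (Sum.elim f g i) U) :
    gens T (Sum.elim f g) h = gens T f hf ∪ Set.range (fm T g hg) := by
  unfold gens
  rw [Set.union_assoc]
  congr 1
  have h1 : fm T (Sum.elim f g) h = Sum.elim (fm T f hf) (fm T g hg) := by
    funext i
    rcases i with i | i <;> rfl
  rw [h1, Set.Sum.elim_range]

theorem an_elim {σ τ : Type} {f : σ → (X → ℂ) → ℂ} (hf : ∀ i, AnalyticOnNhd ℂ (f i) U) {g : τ → (X → ℂ) → ℂ}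
    (hg : ∀ i, AnalyticOnNhd ℂ (g i) U) : ∀ i, AnalyticOnNhd ℂ (Sum.elim f g i) U := by
  rintro (i | i)
  · exact hf i
  · exact hg i

open IntermediateField.algebraAdjoinAdjoin in
/-- elements which are algebraic over the rational functions satisfy a polynomial equation -/
theorem alg_poly {a : M} (h : IsAlgebraic (k0 T) a) : ∃ R : Polynomial (MvPolynomial X ℂ), R ≠ 0 ∧
    R.eval₂ (MvPolynomial.aeval (xc T)).toRingHom a = 0 := by
  classical
  have h1 : IsAlgebraic (Algebra.adjoin ℂ (Set.range (xc T))) a :=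
    (IsFractionRing.isAlgebraic_iff (Algebra.adjoin ℂ (Set.range (xc T)))
      (IntermediateField.adjoin ℂ (Set.range (xc T))) M).2 h
  obtain ⟨p, hp, hpa⟩ := h1
  let ψ : MvPolynomial X ℂ →+* Algebra.adjoin ℂ (Set.range (xc T)) :=
    (MvPolynomial.aeval (xc T)).toRingHom.codRestrict (Algebra.adjoin ℂ (Set.range (xc T)))
      (fun p => by
        rw [Algebra.adjoin_range_eq_range_aeval]
        exact ⟨p, rfl⟩)
  have hψ : Function.Surjective ψ := by
    rintro ⟨b, hb⟩
    have hb' := hb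
    rw [Algebra.adjoin_range_eq_range_aeval] at hb'
    obtain ⟨p, hp⟩ := hb'
    exact ⟨p, Subtype.ext hp⟩
  obtain ⟨R, rfl⟩ := Polynomial.map_surjective ψ hψ p
  refine ⟨R, ?_, ?_⟩
  · rintro rfl
    exact hp (Polynomial.map_zero _)
  · rw [Polynomial.aeval_def, Polynomial.eval₂_map] at hpa
    exact hpa

/-- regularity, in the field -/
theorem reg_to {σ : Type} (hU : IsPreconnected U) (hUo : IsOpen U) (hne : U.Nonempty) (f : σ → (X → ℂ) → ℂ)
    (hf : ∀ i, AnalyticOnNhd ℂ (f i) U) (hM : IsMer U M D T) (hreg : RegularM U f) :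
    ∀ a ∈ IntermediateField.adjoin ℂ (gens T f hf), IsAlgebraic (k0 T) a → a ∈ k0 T := by
  classical
  intro a ha hal
  let L := IntermediateField.adjoin ℂ (gens T f hf)
  have hxL : ∀ p : MvPolynomial X ℂ, MvPolynomial.aeval (xc T) p ∈ L := by
    intro p
    induction p using MvPolynomial.induction_on with
    | C a =>
      rw [MvPolynomial.algHom_C]
      exact IntermediateField.algebraMap_mem _ a
    | add p q hp hq =>
      rw [map_add]
      exact add_mem hp hq
    | mul_X p i hp =>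
      rw [map_mul, MvPolynomial.aeval_X]
      exact mul_mem hp (IntermediateField.subset_adjoin _ _ (Or.inl ⟨i, rfl⟩))
  let ψ : MvPolynomial X ℂ →+* L := (MvPolynomial.aeval (xc T)).toRingHom.codRestrict L hxL
  let _ : Algebra (MvPolynomial X ℂ) L := ψ.toAlgebra
  have hψ : ∀ p, ((algebraMap (MvPolynomial X ℂ) L p : L) : M) = MvPolynomial.aeval (xc T) p := fun p => rfl
  have hfaith : FaithfulSMul (MvPolynomial X ℂ) L := by
    rw [faithfulSMul_iff_algebraMap_injective, injective_iff_map_eq_zero]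
    intro p hp
    refine aeval_xc_inj hM.inj hUo hne ?_
    rw [← hψ, hp]
    rfl
  let F : σ → L := fun i => ⟨fm T f hf i, IntermediateField.subset_adjoin _ _ (Or.inr ⟨i, rfl⟩)⟩
  have hF : ∀ p : MvPolynomial σ (MvPolynomial X ℂ), ((MvPolynomial.aeval F p : L) : M) =
      T (mkA (fun x => evM f x p) (evM_an hf p)) := by
    intro p
    rw [← aeval_fm f hf]
    induction p using MvPolynomial.induction_on with
    | C a =>
      rw [MvPolynomial.algHom_C, MvPolynomial.eval₂_C]
      exact hψ a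
    | add p q hp hq =>
      rw [map_add, MvPolynomial.eval₂_add, ← hp, ← hq]
      rfl
    | mul_X p i hp =>
      rw [map_mul, MvPolynomial.eval₂_mul, MvPolynomial.aeval_X, MvPolynomial.eval₂_X, ← hp]
      rfl
  have hz : ∀ p : MvPolynomial σ (MvPolynomial X ℂ), MvPolynomial.aeval F p = 0 ↔ ∀ x ∈ U, evM f x p = 0 := by
    intro p
    have h1 : MvPolynomial.aeval F p = 0 ↔ ((MvPolynomial.aeval F p : L) : M) = 0 := by
      rw [ZeroMemClass.coe_eq_zero]
    rw [h1, hF, map_eq_zero_iff _ hM.inj, mkA_zero]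
  have hfrac : ∀ l : L, ∃ p q : MvPolynomial σ (MvPolynomial X ℂ), MvPolynomial.aeval F q ≠ 0 ∧
      MvPolynomial.aeval F q * l = MvPolynomial.aeval F p := by
    intro l
    obtain ⟨P, Q, hQ, hPQ⟩ := mem_gens f hf l.2
    refine ⟨P, Q, ?_, ?_⟩
    · intro h1
      apply hQ
      rw [← hF, h1]
      rfl
    · apply Subtype.ext
      change ((MvPolynomial.aeval F Q : L) : M) * l.1 = _
      rw [hF, hF]
      exact hPQ
  obtain ⟨R, hR, hRa⟩ := alg_poly hal
  have hal' : IsAlgebraic (MvPolynomial X ℂ) (⟨a, ha⟩ : L) := by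
    refine ⟨R, hR, ?_⟩
    apply Subtype.ext
    have h2 := Polynomial.hom_eval₂ R (algebraMap (MvPolynomial X ℂ) L) (algebraMap L M) (⟨a, ha⟩ : L)
    rw [Polynomial.aeval_def]
    change algebraMap L M _ = 0
    rw [h2]
    exact hRa
  obtain ⟨p, q, hq, hpq⟩ := reg_fieldM hU hUo hf hreg F hz hfrac ⟨a, ha⟩ hal'
  have h1 : MvPolynomial.aeval (xc T) q * a = MvPolynomial.aeval (xc T) p := congrArg Subtype.val hpq
  have h2 : MvPolynomial.aeval (xc T) q ≠ 0 := fun h3 => hq (aeval_xc_inj hM.inj hUo hne h3)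
  have h3 : a = MvPolynomial.aeval (xc T) p / MvPolynomial.aeval (xc T) q := by
    rw [← h1, mul_div_cancel_left₀ _ h2]
  rw [h3]
  exact div_mem (aeval_mem_k0 p) (aeval_mem_k0 q)

/-- **Towers of primitives over regular differential fields are regular.** -/
theorem tower_reg {σ : Type} (hU : IsPreconnected U) (hUo : IsOpen U) (hne : U.Nonempty) (f : σ → (X → ℂ) → ℂ)
    (hf : ∀ i, AnalyticOnNhd ℂ (f i) U) (hcl : ∀ i, Prim U f (f i)) (hreg : RegularM U f) {n : ℕ}
    (g : Fin n → (X → ℂ) → ℂ) (hg : ∀ i, AnalyticOnNhd ℂ (g i) U)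
    (hT : ∀ i, Prim U (Sum.elim f fun k : {k : Fin n // k < i} => g k.1) (g i)) : RegularM U (Sum.elim f g) := by
  classical
  obtain ⟨M, iF, iA, D, T, hM⟩ := exists_mer hU hUo hne
  have h1 := closed_gens hM hf hcl
  have h2 := reg_to hU hUo hne f hf hM hreg
  have h3 : k0 T ≤ IntermediateField.adjoin ℂ (gens T f hf) :=
    IntermediateField.adjoin.mono _ _ _ (fun s hs => Or.inl hs)
  obtain ⟨_, h4⟩ := tower hM.const (k0 T) (gens T f hf) h3 h1 h2 (fm T g hg) (by
    intro i j
    have h5 := prim_mem hM (an_elim hf fun k : {k : Fin n // k < i} => hg k.1) (hg i) (hT i) j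
    rw [gens_sum f hf (fun k : {k : Fin n // k < i} => g k.1) (fun k => hg k.1)] at h5
    have h6 : Set.range (fm T (fun k : {k : Fin n // k < i} => g k.1) fun k => hg k.1) =
        fm T g hg '' {k | k < i} := by
      ext z
      constructor
      · rintro ⟨k, rfl⟩
        exact ⟨k.1, k.2, rfl⟩
      · rintro ⟨k, hk, rfl⟩
        exact ⟨⟨k, hk⟩, rfl⟩
    rw [h6] at h5
    exact h5)
  refine reg_of hU hUo (Sum.elim f g) (an_elim hf hg) hM ?_
  rw [gens_sum f hf g hg]
  exact h4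

/-- no functions at all -/
theorem reg_empty (hU : IsPreconnected U) (hUo : IsOpen U) (hne : U.Nonempty) (f : Empty → (X → ℂ) → ℂ) :
    RegularM U f := by
  obtain ⟨M, iF, iA, D, T, hM⟩ := exists_mer hU hUo hne
  have hf : ∀ i, AnalyticOnNhd ℂ (f i) U := fun i => i.elim
  refine reg_of hU hUo f hf hM fun a ha _ => ?_
  have h1 : gens T f hf = Set.range (xc T) := by
    unfold gens
    rw [Set.range_eq_empty (fm T f hf), Set.union_empty]
  rw [h1] at ha
  exact ha

end Pool.Agent.Q311.KO
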